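import Pool.Agent.T9h50.TM.Fld
import Pool.Agent.T9h50.TB.Esc2

/-!
# Escape of one of three comparable bodies
-/

set_option autoImplicit false

open scoped NNReal ComplexConjugate Topology
open Complex Set Filter
open Pool.Agent.T9h50.TB (E kd kd_lip kd_eq norm_kd_le kd_rot ip dtm ip_self lagr abs_ip_le abs_dtm_le
  RR Hb hasDerivAt_re hasDerivAt_im hasDerivAt_ip hasDerivAt_dtm hasDerivAt_inv_norm le_of_deriv
  forall_pos_of_step kd_congr)

namespace Pool.Agent.T9h50.TM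

/-- component in a fixed direction -/
noncomputable def cmp (z : ℂ) : ℝ := -(20 / 101) * z.re - 99 / 101 * z.im

lemma cmp_add (z w : ℂ) : cmp (z + w) = cmp z + cmp w := by simp only [cmp, Complex.add_re, Complex.add_im]; ring

lemma cmp_smul (c : ℝ) (z : ℂ) : cmp (c • z) = c * cmp z := by
  simp only [cmp, Complex.smul_re, Complex.smul_im, smul_eq_mul]; ring

lemma abs_cmp_le (z : ℂ) : |cmp z| ≤ ‖z‖ := by
  have h : cmp z = ip ⟨-(20 / 101), -(99 / 101)⟩ z := by simp only [cmp, ip]; ring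
  have h1 : ‖(⟨-(20 / 101), -(99 / 101)⟩ : ℂ)‖ ≤ 1 := by
    have : ‖(⟨-(20 / 101), -(99 / 101)⟩ : ℂ)‖ ^ 2 ≤ 1 := by
      rw [← ip_self, ip]; norm_num
    nlinarith [norm_nonneg (⟨-(20 / 101), -(99 / 101)⟩ : ℂ)]
  rw [h]
  refine (abs_ip_le _ _).trans ?_
  nlinarith [norm_nonneg z]

lemma hasDerivAt_cmp {f : ℝ → ℂ} {f' : ℂ} {t : ℝ} (h : HasDerivAt f f' t) :
    HasDerivAt (fun s => cmp (f s)) (cmp f') t :=
  ((hasDerivAt_re h).const_mul _).fun_sub ((hasDerivAt_im h).const_mul _)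

variable {P0 : Par}

/-- the difference of the attractions by the light body -/
lemma tidal {Y : ℝ} (hA : P0.dA ≤ Y) (hY : P0.dC ≤ Y) {a b : ℂ} (ha : Y ≤ ‖a‖) (hc : Y ≤ ‖a + b‖) :
    ‖kd P0.dA a - kd P0.dC (a + b)‖ ≤ 2 / Y ^ 3 * ‖b‖ := by
  rw [kd_congr hA ha, kd_congr hY hc]
  have hY0 : 0 < Y := P0.dC0.trans_le hY
  have := kd_lip hY0 a (a + b)
  have e : a - (a + b) = -b := by ring
  rwa [e, norm_neg] at this

/-- the component of the attraction by one body -/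
lemma cmp_kd_le {d : ℝ} (hd0 : 0 < d) {z : ℂ} {x : ℝ} (hx : 0 < x) (hz : x ≤ cmp z) (hd : d ≤ x) :
    cmp (kd d z) ≤ 1 / x ^ 2 := by
  have h1 : cmp z ≤ ‖z‖ := (le_abs_self _).trans (abs_cmp_le z)
  have h2 : 0 < ‖z‖ := by linarith
  rw [kd_eq (hd.trans (hz.trans h1)), cmp_smul]
  have h3 : (‖z‖ ^ 3)⁻¹ * cmp z ≤ (‖z‖ ^ 3)⁻¹ * ‖z‖ := by gcongr
  have h4 : (‖z‖ ^ 3)⁻¹ * ‖z‖ = 1 / ‖z‖ ^ 2 := by field_simp
  have h5 : 1 / ‖z‖ ^ 2 ≤ 1 / x ^ 2 := by
    apply one_div_le_one_div_of_le (by positivity)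
    have : x ≤ ‖z‖ := hz.trans h1
    gcongr
  linarith

lemma sum_inv_sq {X s : ℝ} (hX : 1889 / 1000 ≤ X) (hs : |s| ≤ 35 / 100) :
    1 / (X - s) ^ 2 + 1 / (X + s) ^ 2 ≤ 2 / X ^ 2 + (8 / 10) / X ^ 4 := by
  obtain ⟨s1, s2⟩ := abs_le.1 hs
  have p1 : 0 < X - s := by linarith
  have p2 : 0 < X + s := by linarith
  have pX : 0 < X := by linarith
  have hw : s ^ 2 ≤ 49 / 400 := by nlinarith
  have hw0 : 0 ≤ s ^ 2 := sq_nonneg s
  have hu : 35 / 10 ≤ X ^ 2 := by nlinarith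
  set u := X ^ 2 with hu'
  set w := s ^ 2 with hw'
  have e1 : 1 / (X - s) ^ 2 + 1 / (X + s) ^ 2 = 2 * (u + w) / (u - w) ^ 2 := by
    have e2 : u - w = (X - s) * (X + s) := by simp only [u, w]; ring
    rw [e2]
    field_simp
    simp only [u, w]; ring
  have e3 : 2 / u + (8 / 10) / X ^ 4 = (2 * u + 8 / 10) / u ^ 2 := by
    have e4 : X ^ 4 = u ^ 2 := by simp only [u]; ring
    have hu0 : u ≠ 0 := by linarith
    rw [e4]; field_simp
  have pu : 0 < u - w := by linarith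
  have pu2 : 0 < u := by linarith
  rw [e1, e3, div_le_div_iff₀ (by positivity) (by positivity)]
  have k1 : 0 ≤ u * (u - 35 / 10) := mul_nonneg pu2.le (by linarith)
  have k2 : 0 ≤ u * (49 / 400 - w) := mul_nonneg pu2.le (by linarith)
  have k3 : 0 ≤ u ^ 2 * (49 / 400 - w) := mul_nonneg (by positivity) (by linarith)
  have k4 : 0 ≤ u * w ^ 2 := by positivity
  have k5 : 0 ≤ w ^ 2 := by positivity
  nlinarith

/-- the acceleration of `R` -/
lemma cmp_accR {m : Fin 3 → ℝ} (hm : NearM (1 / 10 ^ 6) m) (hA : P0.dA ≤ 3 / 2) (hC : P0.dC ≤ 3 / 2)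
    {a b : ℂ} (hX : 1889 / 1000 ≤ cmp (RR m a b)) (hb : ‖b‖ ≤ 7 / 10) :
    -(30001 / 10000 / cmp (RR m a b) ^ 2 + 12003 / 10000 / cmp (RR m a b) ^ 4) ≤
      cmp (RR m (FA P0 m a b) (FB P0 m a b)) := by
  obtain ⟨⟨m0, m0'⟩, ⟨m1, m1'⟩, ⟨m2, m2'⟩⟩ := hm.bounds
  norm_num at m0 m0' m1 m1' m2 m2'
  have hM : 0 < m 1 + m 2 := by linarith
  set μ : ℝ := m 2 / (m 1 + m 2) with hμ
  have μ1 : μ ≤ 500001 / 10 ^ 6 := by rw [hμ, div_le_iff₀ hM]; norm_num; linarith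
  have μ2 : 499999 / 10 ^ 6 ≤ μ := by rw [hμ, le_div_iff₀ hM]; norm_num; linarith
  set c1 := m 0 + m 1 - μ * m 0 with hc1
  set c2 := m 2 + μ * m 0 with hc2
  have e : RR m (FA P0 m a b) (FB P0 m a b) = -(c1 • kd P0.dA a) - c2 • kd P0.dC (a + b) := by
    have e1 : μ * (m 1 + m 2) = m 2 := by rw [hμ]; field_simp
    have e2 : (μ : ℝ) • ((m 1 + m 2 : ℝ) • kd P0.dB b) = (m 2 : ℝ) • kd P0.dB b := by
      rw [smul_smul, e1]
    rw [RR, FA, FB, ← hμ, smul_sub, e2]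
    simp only [smul_sub, smul_smul, c1, c2, sub_smul, add_smul]
    abel
  have hμm : μ * m 0 ≤ 500003 / 10 ^ 6 := by
    have : μ * m 0 ≤ 500001 / 10 ^ 6 * (1000001 / 10 ^ 6) := by
      apply mul_le_mul μ1 (by norm_num; linarith) (by linarith) (by norm_num)
    norm_num at this ⊢; linarith
  have hμm2 : 499998 / 10 ^ 6 ≤ μ * m 0 := by
    have : 499999 / 10 ^ 6 * (999999 / 10 ^ 6) ≤ μ * m 0 := by
      apply mul_le_mul μ2 (by norm_num; linarith) (by norm_num) (by norm_num at μ2; linarith)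
    norm_num at this ⊢; linarith
  have hc1' : c1 ≤ 150001 / 100000 := by rw [hc1]; norm_num at hμm2 ⊢; linarith
  have hc1p : 0 ≤ c1 := by rw [hc1]; norm_num at hμm ⊢; linarith
  have hc2' : c2 ≤ 150001 / 100000 := by rw [hc2]; norm_num at hμm ⊢; linarith
  have hc2p : 0 ≤ c2 := by rw [hc2]; norm_num at hμm2 ⊢; linarith
  set X := cmp (RR m a b) with hXd
  have hXe : X = cmp a + μ * cmp b := by rw [hXd, RR, cmp_add, cmp_smul]
  have hβ : |cmp b| ≤ 7 / 10 := (abs_cmp_le b).trans hb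
  obtain ⟨β1, β2⟩ := abs_le.1 hβ
  set s := cmp b / 2 with hs
  have hs35 : |s| ≤ 35 / 100 := by rw [hs, abs_le]; constructor <;> linarith
  have hsum := sum_inv_sq hX hs35
  obtain ⟨s1, s2⟩ := abs_le.1 hs35
  have dμ : |(μ - 1 / 2) * cmp b| ≤ 7 / 10 ^ 7 := by
    rw [abs_mul]
    have h1 : |μ - 1 / 2| ≤ 1 / 10 ^ 6 := by rw [abs_le]; norm_num at μ1 μ2 ⊢; constructor <;> linarith
    calc |μ - 1 / 2| * |cmp b| ≤ 1 / 10 ^ 6 * (7 / 10) := by gcongr
      _ = _ := by norm_num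
  obtain ⟨d1, d2⟩ := abs_le.1 dμ
  have xa : (1 - 1 / 10 ^ 6) * (X - s) ≤ cmp a := by
    have h1 : cmp a = (X - s) - (μ - 1 / 2) * cmp b := by rw [hXe, hs]; ring
    rw [h1]; norm_num at d2 hX ⊢; linarith
  have xc : (1 - 1 / 10 ^ 6) * (X + s) ≤ cmp (a + b) := by
    have h1 : cmp (a + b) = (X + s) - (μ - 1 / 2) * cmp b := by rw [cmp_add, hXe, hs]; ring
    rw [h1]; norm_num at d2 hX ⊢; linarith
  have pa : 0 < X - s := by linarith
  have pc : 0 < X + s := by linarith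
  have ka := cmp_kd_le P0.dA0 (by positivity) xa (by norm_num at hX ⊢; linarith)
  have kc := cmp_kd_le P0.dC0 (by positivity) xc (by norm_num at hX ⊢; linarith)
  have fa : 1 / ((1 - 1 / 10 ^ 6) * (X - s)) ^ 2 ≤ 100001 / 100000 * (1 / (X - s) ^ 2) := by
    have e1 : 1 / ((1 - 1 / 10 ^ 6) * (X - s)) ^ 2 = 1 / (1 - 1 / 10 ^ 6) ^ 2 * (1 / (X - s) ^ 2) := by
      field_simp
    rw [e1]
    apply mul_le_mul_of_nonneg_right _ (by positivity)
    norm_num
  have fc : 1 / ((1 - 1 / 10 ^ 6) * (X + s)) ^ 2 ≤ 100001 / 100000 * (1 / (X + s) ^ 2) := by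
    have e1 : 1 / ((1 - 1 / 10 ^ 6) * (X + s)) ^ 2 = 1 / (1 - 1 / 10 ^ 6) ^ 2 * (1 / (X + s) ^ 2) := by
      field_simp
    rw [e1]
    apply mul_le_mul_of_nonneg_right _ (by positivity)
    norm_num
  have ia : 0 ≤ 1 / (X - s) ^ 2 := by positivity
  have ic : 0 ≤ 1 / (X + s) ^ 2 := by positivity
  have ga : c1 * cmp (kd P0.dA a) ≤ 150003 / 100000 * (1 / (X - s) ^ 2) := by
    calc c1 * cmp (kd P0.dA a) ≤ c1 * (100001 / 100000 * (1 / (X - s) ^ 2)) := by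
          apply mul_le_mul_of_nonneg_left (ka.trans fa) hc1p
      _ ≤ 150001 / 100000 * (100001 / 100000 * (1 / (X - s) ^ 2)) := by
          apply mul_le_mul_of_nonneg_right hc1'; positivity
      _ ≤ _ := by nlinarith
  have gc : c2 * cmp (kd P0.dC (a + b)) ≤ 150003 / 100000 * (1 / (X + s) ^ 2) := by
    calc c2 * cmp (kd P0.dC (a + b)) ≤ c2 * (100001 / 100000 * (1 / (X + s) ^ 2)) := by
          apply mul_le_mul_of_nonneg_left (kc.trans fc) hc2p
      _ ≤ 150001 / 100000 * (100001 / 100000 * (1 / (X + s) ^ 2)) := by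
          apply mul_le_mul_of_nonneg_right hc2'; positivity
      _ ≤ _ := by nlinarith
  have e5 : cmp (RR m (FA P0 m a b) (FB P0 m a b)) =
      -(c1 * cmp (kd P0.dA a)) - c2 * cmp (kd P0.dC (a + b)) := by
    rw [e, ← cmp_smul, ← cmp_smul]
    simp only [cmp, Complex.sub_re, Complex.sub_im, Complex.neg_re, Complex.neg_im]
    ring
  rw [e5]
  have pX : 0 < X := by linarith
  have i2 : 0 ≤ 1 / X ^ 2 := by positivity
  have i4 : 0 ≤ 1 / X ^ 4 := by positivity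
  have t1 : 2 / X ^ 2 = 2 * (1 / X ^ 2) := by ring
  have t2 : (8 / 10) / X ^ 4 = 8 / 10 * (1 / X ^ 4) := by ring
  have t3 : 30001 / 10000 / X ^ 2 = 30001 / 10000 * (1 / X ^ 2) := by ring
  have t4 : 12003 / 10000 / X ^ 4 = 12003 / 10000 * (1 / X ^ 4) := by ring
  rw [t1, t2] at hsum
  rw [t3, t4]
  linarith

/-- the conditions which are preserved -/
structure Cnd (m : Fin 3 → ℝ) (a b p q : ℂ) : Prop where
  v : 35 / 100 ≤ cmp (RR m p q)
  b1 : 1 / 100 ≤ ‖b‖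
  b2 : ‖b‖ ≤ 7 / 10
  q : ‖q‖ * ‖b‖ ≤ 83 / 100

set_option maxHeartbeats 1000000 in
/-- one step of the continuous induction -/
theorem cnd_improve {m : Fin 3 → ℝ} (hm : NearM (1 / 10 ^ 6) m) (hdA : P0.dA ≤ 3 / 2) (hdC0 : P0.dC ≤ 3 / 2)
    (hdB : P0.dB ≤ 1 / 100) {A B P Q : ℝ → ℂ} {T0 T : ℝ}
    (hT : T0 ≤ T)
    (hA : ∀ t ∈ Icc T0 T, HasDerivAt A (P t) t) (hB : ∀ t ∈ Icc T0 T, HasDerivAt B (Q t) t)
    (hP : ∀ t ∈ Icc T0 T, HasDerivAt P (FA P0 m (A t) (B t)) t)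
    (hQ : ∀ t ∈ Icc T0 T, HasDerivAt Q (FB P0 m (A t) (B t)) t)
    (hX : 1889 / 1000 ≤ cmp (RR m (A T0) (B T0))) (hV : 1857 / 1000 ≤ cmp (RR m (P T0) (Q T0)))
    (hh : Hb m (B T0) (Q T0) ≤ -(361 / 100)) (hl : 557 / 1000 ≤ dtm (B T0) (Q T0))
    (hc : ∀ t ∈ Icc T0 T, Cnd m (A t) (B t) (P t) (Q t)) :
    (cmp (RR m (A T0) (B T0)) + 35 / 100 * (T - T0) ≤ cmp (RR m (A T) (B T))) ∧
    (35 / 100 < cmp (RR m (P T) (Q T)) ∧ 1 / 100 < ‖B T‖ ∧ ‖B T‖ < 7 / 10 ∧ ‖Q T‖ * ‖B T‖ < 83 / 100) ∧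
    (3 / 2 ≤ ‖A T‖ ∧ 3 / 2 ≤ ‖A T + B T‖) := by
  obtain ⟨⟨m0, m0'⟩, ⟨m1, m1'⟩, ⟨m2, m2'⟩⟩ := hm.bounds
  norm_num at m0 m0' m1 m1' m2 m2'
  have hM : 0 < m 1 + m 2 := by linarith
  set μ : ℝ := m 2 / (m 1 + m 2) with hμ
  have hμ0 : 0 < μ := by rw [hμ]; apply div_pos <;> linarith
  have hμ1 : μ ≤ 501 / 1000 := by rw [hμ, div_le_iff₀ hM]; linarith
  have hμ2 : 499 / 1000 ≤ μ := by rw [hμ, le_div_iff₀ hM]; linarith
  -- monotonicity of X
  have hR : ∀ t ∈ Icc T0 T, HasDerivAt (fun s => cmp (RR m (A s) (B s))) (cmp (RR m (P t) (Q t))) t := by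
    intro t ht
    exact hasDerivAt_cmp ((hA t ht).fun_add ((hB t ht).const_smul μ))
  have hRV : ∀ t ∈ Icc T0 T, HasDerivAt (fun s => cmp (RR m (P s) (Q s)))
      (cmp (RR m (FA P0 m (A t) (B t)) (FB P0 m (A t) (B t)))) t := by
    intro t ht
    exact hasDerivAt_cmp ((hP t ht).fun_add ((hQ t ht).const_smul μ))
  have hXt : ∀ t ∈ Icc T0 T, cmp (RR m (A T0) (B T0)) + 35 / 100 * (t - T0) ≤ cmp (RR m (A t) (B t)) := by
    intro t ht
    have h1 := le_of_deriv (f := fun s => cmp (RR m (A s) (B s)) - 35 / 100 * (s - T0))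
      (f' := fun s => cmp (RR m (P s) (Q s)) - 35 / 100 * 1) ht.1
      (fun s hs => (hR s ⟨hs.1, hs.2.trans ht.2⟩).fun_sub
        (((hasDerivAt_id s).sub_const T0).const_mul (35 / 100)))
      (fun s hs => by linarith [(hc s ⟨hs.1, hs.2.trans ht.2⟩).v])
    simp only [sub_self, mul_zero, sub_zero] at h1
    linarith
  set X : ℝ → ℝ := fun t => cmp (RR m (A t) (B t)) with hXd
  set V : ℝ → ℝ := fun t => cmp (RR m (P t) (Q t)) with hVd
  have hX0 : ∀ t ∈ Icc T0 T, 1889 / 1000 ≤ X t := by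
    intro t ht
    have h1 := hXt t ht
    have h2 := ht.1
    simp only [hXd] at h1 ⊢
    linarith
  have hXder : ∀ t ∈ Icc T0 T, HasDerivAt X (V t) t := hR
  set Y : ℝ → ℝ := fun t => X t - 351 / 1000 with hY
  have hY0 : ∀ t ∈ Icc T0 T, 1538 / 1000 ≤ Y t := by
    intro t ht
    have h1 := hX0 t ht
    simp only [hY]
    linarith
  have hdC : ∀ t ∈ Icc T0 T, P0.dC ≤ Y t := fun t ht => by
    have := hY0 t ht
    linarith
  have hdA' : ∀ t ∈ Icc T0 T, P0.dA ≤ Y t := fun t ht => by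
    have := hY0 t ht
    linarith
  have hYa : ∀ t ∈ Icc T0 T, Y t ≤ ‖A t‖ := by
    intro t ht
    have h1 : cmp (RR m (A t) (B t)) ≤ ‖RR m (A t) (B t)‖ := (le_abs_self _).trans (abs_cmp_le _)
    have h2 : ‖RR m (A t) (B t)‖ ≤ ‖A t‖ + μ * ‖B t‖ := by
      rw [RR]
      refine (norm_add_le _ _).trans ?_
      rw [norm_smul, Real.norm_of_nonneg hμ0.le]
    have h3 := (hc t ht).b2
    have h4 : μ * ‖B t‖ ≤ 501 / 1000 * (7 / 10) := by gcongr
    simp only [hY, hXd]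
    linarith
  have hYc : ∀ t ∈ Icc T0 T, Y t ≤ ‖A t + B t‖ := by
    intro t ht
    have h1 : cmp (RR m (A t) (B t)) ≤ ‖RR m (A t) (B t)‖ := (le_abs_self _).trans (abs_cmp_le _)
    have h2 : ‖RR m (A t) (B t)‖ ≤ ‖A t + B t‖ + (1 - μ) * ‖B t‖ := by
      have e : RR m (A t) (B t) = (A t + B t) - (1 - μ) • B t := by
        rw [RR, sub_smul, one_smul]; ring
      rw [e]
      refine (norm_sub_le _ _).trans ?_
      rw [norm_smul, Real.norm_of_nonneg (by linarith)]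
    have h3 := (hc t ht).b2
    have h4 : (1 - μ) * ‖B t‖ ≤ 501 / 1000 * (7 / 10) := by
      apply mul_le_mul (by linarith) h3 (norm_nonneg _) (by norm_num)
    simp only [hY, hXd]
    linarith
  have hTT : T ∈ Icc T0 T := ⟨hT, le_rfl⟩
  have hT0 : T0 ∈ Icc T0 T := ⟨le_rfl, hT⟩
  -- energy of R
  have hW : ∀ t ∈ Icc T0 T, 76 / 1000 ≤
      V t ^ 2 / 2 - 30001 / 10000 * (X t)⁻¹ - 4001 / 10000 * (X t ^ 3)⁻¹ := by
    intro t ht
    have key : V T0 ^ 2 / 2 - 30001 / 10000 * (X T0)⁻¹ - 4001 / 10000 * (X T0 ^ 3)⁻¹ ≤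
        V t ^ 2 / 2 - 30001 / 10000 * (X t)⁻¹ - 4001 / 10000 * (X t ^ 3)⁻¹ := by
      refine le_of_deriv (f := fun s => V s ^ 2 / 2 - 30001 / 10000 * (X s)⁻¹ - 4001 / 10000 * (X s ^ 3)⁻¹)
        (f' := fun s => (((2 : ℕ) : ℝ) * V s ^ (2 - 1) *
          cmp (RR m (FA P0 m (A s) (B s)) (FB P0 m (A s) (B s)))) / 2 -
          30001 / 10000 * (-V s / X s ^ 2) -
          4001 / 10000 * (-(((3 : ℕ) : ℝ) * X s ^ (3 - 1) * V s) / (X s ^ 3) ^ 2)) ht.1
        (fun s hs => ?_) (fun s hs => ?_)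
      · have hs' : s ∈ Icc T0 T := ⟨hs.1, hs.2.trans ht.2⟩
        have hXs : X s ≠ 0 := by have := hX0 s hs'; linarith
        exact ((((hRV s hs').pow 2).div_const 2).fun_sub (((hXder s hs').fun_inv hXs).const_mul _)).fun_sub
          ((((hXder s hs').fun_pow 3).fun_inv (pow_ne_zero 3 hXs)).const_mul _)
      · have hs' : s ∈ Icc T0 T := ⟨hs.1, hs.2.trans ht.2⟩
        have hv := (hc s hs').v
        have hacc := cmp_accR hm hdA hdC0 (hX0 s hs') (hc s hs').b2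
        have hXs : 0 < X s := by have := hX0 s hs'; linarith
        simp only [Nat.cast_ofNat, Nat.add_one_sub_one, pow_one]
        have e : 2 * V s * cmp (RR m (FA P0 m (A s) (B s)) (FB P0 m (A s) (B s))) / 2 -
            30001 / 10000 * (-V s / X s ^ 2) -
            4001 / 10000 * (-(3 * X s ^ 2 * V s) / (X s ^ 3) ^ 2) = V s *
            (cmp (RR m (FA P0 m (A s) (B s)) (FB P0 m (A s) (B s))) +
              (30001 / 10000 / X s ^ 2 + 12003 / 10000 / X s ^ 4)) := by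
          field_simp
          ring
        rw [e]
        apply mul_nonneg (by simp only [hVd]; linarith)
        have h2 : -(30001 / 10000 / X s ^ 2 + 12003 / 10000 / X s ^ 4) ≤
            cmp (RR m (FA P0 m (A s) (B s)) (FB P0 m (A s) (B s))) := hacc
        linarith
    have x0 : 1889 / 1000 ≤ X T0 := hX0 T0 hT0
    have x0p : 0 < X T0 := by linarith
    have j1 : (X T0)⁻¹ ≤ 1000 / 1889 := by
      rw [inv_le_comm₀ x0p (by norm_num)]; norm_num; linarith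
    have j2 : (X T0 ^ 3)⁻¹ ≤ (1000 / 1889) ^ 3 := by
      rw [← inv_pow]; gcongr
    have j3 : (1857 / 1000 : ℝ) ^ 2 ≤ V T0 ^ 2 := by
      have : (1857 / 1000 : ℝ) ≤ V T0 := hV
      gcongr
    norm_num at j1 j2 j3 key ⊢
    linarith
  have hVX : ∀ t ∈ Icc T0 T, 344 / 100 ≤ V t * X t := by
    intro t ht
    have h1 := hW t ht
    have h2 := hX0 t ht
    have hXs : 0 < X t := by linarith
    have hv : 0 < V t := by have := (hc t ht).v; simp only [hVd]; linarith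
    have h3 : 0 ≤ (X t ^ 3)⁻¹ := by positivity
    have h4 : 152 / 1000 + 60002 / 10000 * (X t)⁻¹ ≤ V t ^ 2 := by linarith
    have h5 : (152 / 1000 + 60002 / 10000 * (X t)⁻¹) * X t ^ 2 ≤ V t ^ 2 * X t ^ 2 := by gcongr
    have h6 : (152 / 1000 + 60002 / 10000 * (X t)⁻¹) * X t ^ 2 = 152 / 1000 * X t ^ 2 + 60002 / 10000 * X t := by
      field_simp
    rw [h6] at h5
    have h7 : (344 / 100 : ℝ) ^ 2 ≤ (V t * X t) ^ 2 := by nlinarith
    exact (abs_le_of_sq_le_sq' h7 (by positivity)).2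
  -- energy of the binary
  have hBne : ∀ t ∈ Icc T0 T, B t ≠ 0 := fun t ht => by
    have := (hc t ht).b1
    intro h0
    rw [h0, norm_zero] at this
    norm_num at this
  have hkB : ∀ t ∈ Icc T0 T, kd P0.dB (B t) = ((‖B t‖ ^ 3)⁻¹ : ℝ) • B t := fun t ht => by
    apply kd_eq
    have := (hc t ht).b1
    linarith
  have hFB : ∀ t ∈ Icc T0 T, FB P0 m (A t) (B t) = (m 0 : ℝ) • (kd P0.dA (A t) - kd P0.dC (A t + B t)) -
      ((m 1 + m 2) * (‖B t‖ ^ 3)⁻¹ : ℝ) • B t := fun t ht => by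
    rw [FB, hkB t ht, smul_sub, smul_smul]
  have htid : ∀ t ∈ Icc T0 T, ‖kd P0.dA (A t) - kd P0.dC (A t + B t)‖ ≤ 371 / 100 / X t ^ 3 * ‖B t‖ := by
    intro t ht
    have hYs : 0 < Y t := by have := hY0 t ht; linarith
    have hXs : 0 < X t := by have := hX0 t ht; linarith
    refine (tidal (hdA' t ht) (hdC t ht) (hYa t ht) (hYc t ht)).trans ?_
    apply mul_le_mul_of_nonneg_right _ (norm_nonneg _)
    have hXY : 1538 / 1889 * X t ≤ Y t := by have := hX0 t ht; simp only [hY]; linarith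
    have h3 : (1538 / 1889 * X t) ^ 3 ≤ Y t ^ 3 := by gcongr
    rw [div_le_div_iff₀ (by positivity) (by positivity)]
    have h4 : 0 < X t ^ 3 := by positivity
    rw [mul_pow] at h3
    norm_num at h3 ⊢
    linarith
  have ipadd : ∀ (u v w : ℂ) (c d : ℝ), ip u (c • v - d • w) = c * ip u v - d * ip u w := by
    intro u v w c d
    simp only [ip, Complex.sub_re, Complex.sub_im, Complex.smul_re, Complex.smul_im, smul_eq_mul]; ring
  have dtadd : ∀ (u v w : ℂ) (c d : ℝ), dtm u (c • v - d • w) = c * dtm u v - d * dtm u w := by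
    intro u v w c d
    simp only [dtm, Complex.sub_re, Complex.sub_im, Complex.smul_re, Complex.smul_im, smul_eq_mul]; ring
  have hV3 : ∀ s ∈ Icc T0 T, 344 / 100 / X s ^ 3 ≤ V s / X s ^ 2 := by
    intro s hs
    have h1 := hVX s hs
    have hXs : 0 < X s := by have := hX0 s hs; linarith
    rw [div_le_div_iff₀ (by positivity) (by positivity)]
    have h2 : 0 < X s ^ 2 := by positivity
    nlinarith
  have hH : Hb m (B T) (Q T) + 9 / 10 * (X T)⁻¹ ≤ Hb m (B T0) (Q T0) + 9 / 10 * (X T0)⁻¹ := by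
    have key := le_of_deriv (f := fun s => -(Hb m (B s) (Q s) + 9 / 10 * (X s)⁻¹))
      (f' := fun s => -((ip (FB P0 m (A s) (B s)) (Q s) + ip (Q s) (FB P0 m (A s) (B s))) / 2 -
        (m 1 + m 2) * (-(ip (B s) (Q s)) / ‖B s‖ ^ 3) + 9 / 10 * (-V s / X s ^ 2))) hT
      (fun s hs => ?_) (fun s hs => ?_)
    · linarith
    · have hXs : X s ≠ 0 := by have := hX0 s hs; linarith
      have d1 := hasDerivAt_ip (hQ s hs) (hQ s hs)
      have e1 : (fun s => ip (Q s) (Q s)) = fun s => ‖Q s‖ ^ 2 := by funext s; exact ip_self _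
      rw [e1] at d1
      have d2 := hasDerivAt_inv_norm (hB s hs) (hBne s hs)
      have d3 := (hXder s hs).fun_inv hXs
      exact (((d1.div_const 2).fun_sub (d2.const_mul (m 1 + m 2))).fun_add (d3.const_mul (9 / 10))).fun_neg
    · have hXs : 0 < X s := by have := hX0 s hs; linarith
      have hq := (hc s hs).q
      have c1 : ip (FB P0 m (A s) (B s)) (Q s) = ip (Q s) (FB P0 m (A s) (B s)) := by simp only [ip]; ring
      have c2 : ip (B s) (Q s) = ip (Q s) (B s) := by simp only [ip]; ring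
      rw [c1, c2, hFB s hs, ipadd]
      have h1 : |ip (Q s) (kd P0.dA (A s) - kd P0.dC (A s + B s))| ≤ 83 / 100 * (371 / 100 / X s ^ 3) := by
        refine (abs_ip_le _ _).trans ?_
        calc ‖Q s‖ * ‖kd P0.dA (A s) - kd P0.dC (A s + B s)‖ ≤ ‖Q s‖ * (371 / 100 / X s ^ 3 * ‖B s‖) := by
              gcongr; exact htid s hs
          _ = (‖Q s‖ * ‖B s‖) * (371 / 100 / X s ^ 3) := by ring
          _ ≤ _ := by gcongr
      have h2 := (abs_le.1 h1).2
      have e2 : -((m 0 * ip (Q s) (kd P0.dA (A s) - kd P0.dC (A s + B s)) -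
          (m 1 + m 2) * (‖B s‖ ^ 3)⁻¹ * ip (Q s) (B s) +
          (m 0 * ip (Q s) (kd P0.dA (A s) - kd P0.dC (A s + B s)) -
          (m 1 + m 2) * (‖B s‖ ^ 3)⁻¹ * ip (Q s) (B s))) / 2 -
          (m 1 + m 2) * (-(ip (Q s) (B s)) / ‖B s‖ ^ 3) + 9 / 10 * (-V s / X s ^ 2)) =
          9 / 10 * (V s / X s ^ 2) -
          m 0 * ip (Q s) (kd P0.dA (A s) - kd P0.dC (A s + B s)) := by
        field_simp
        ring
      rw [e2]
      have h3 : m 0 * ip (Q s) (kd P0.dA (A s) - kd P0.dC (A s + B s)) ≤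
          1000001 / 10 ^ 6 * (83 / 100 * (371 / 100 / X s ^ 3)) := by
        have h4 : m 0 * ip (Q s) (kd P0.dA (A s) - kd P0.dC (A s + B s)) ≤
            m 0 * (83 / 100 * (371 / 100 / X s ^ 3)) := by
          apply mul_le_mul_of_nonneg_left h2; linarith
        refine h4.trans ?_
        gcongr
        norm_num; linarith
      have h5 := hV3 s hs
      have h6 : (1000001 : ℝ) / 10 ^ 6 * (83 / 100 * (371 / 100 / X s ^ 3)) ≤
          9 / 10 * (344 / 100 / X s ^ 3) := by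
        have e7 : (1000001 : ℝ) / 10 ^ 6 * (83 / 100 * (371 / 100 / X s ^ 3)) =
          (1000001 / 10 ^ 6 * (83 / 100 * (371 / 100))) / X s ^ 3 := by ring
        have e8 : (9 : ℝ) / 10 * (344 / 100 / X s ^ 3) = (9 / 10 * (344 / 100)) / X s ^ 3 := by
          ring
        rw [e7, e8]
        apply div_le_div_of_nonneg_right _ (by positivity)
        norm_num
      linarith
  have hLl : dtm (B T0) (Q T0) - 53 / 100 * (X T0)⁻¹ ≤ dtm (B T) (Q T) - 53 / 100 * (X T)⁻¹ := by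
    refine le_of_deriv (f := fun s => dtm (B s) (Q s) - 53 / 100 * (X s)⁻¹)
      (f' := fun s => (dtm (Q s) (Q s) + dtm (B s) (FB P0 m (A s) (B s))) - 53 / 100 *
        (-V s / X s ^ 2)) hT
      (fun s hs => ?_) (fun s hs => ?_)
    · have hXs : X s ≠ 0 := by have := hX0 s hs; linarith
      have d1 := hasDerivAt_dtm (hB s hs) (hQ s hs)
      have d3 := (hXder s hs).fun_inv hXs
      exact d1.fun_sub (d3.const_mul (53 / 100))
    · have hXs : 0 < X s := by have := hX0 s hs; linarith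
      have hb := (hc s hs).b2
      have c1 : dtm (Q s) (Q s) = 0 := by simp only [dtm]; ring
      have c2 : dtm (B s) (B s) = 0 := by simp only [dtm]; ring
      rw [c1, hFB s hs, dtadd, c2]
      have h1 : |dtm (B s) (kd P0.dA (A s) - kd P0.dC (A s + B s))| ≤
          7 / 10 * (371 / 100 / X s ^ 3 * (7 / 10)) := by
        refine (abs_dtm_le _ _).trans (mul_le_mul hb ((htid s hs).trans ?_) (norm_nonneg _) (by norm_num))
        gcongr
      have h2 := (abs_le.1 h1).1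
      have e2 : (0 + (m 0 * dtm (B s) (kd P0.dA (A s) - kd P0.dC (A s + B s)) -
          (m 1 + m 2) * (‖B s‖ ^ 3)⁻¹ * 0)) - 53 / 100 * (-V s / X s ^ 2) =
          53 / 100 * (V s / X s ^ 2) +
          m 0 * dtm (B s) (kd P0.dA (A s) - kd P0.dC (A s + B s)) := by
        ring
      rw [e2]
      have h3 : -(1000001 / 10 ^ 6 * (7 / 10 * (371 / 100 / X s ^ 3 * (7 / 10)))) ≤
          m 0 * dtm (B s) (kd P0.dA (A s) - kd P0.dC (A s + B s)) := by
        have h4 : m 0 * (-(7 / 10 * (371 / 100 / X s ^ 3 * (7 / 10)))) ≤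
            m 0 * dtm (B s) (kd P0.dA (A s) - kd P0.dC (A s + B s)) := by
          apply mul_le_mul_of_nonneg_left h2; linarith
        refine le_trans ?_ h4
        have h5 : m 0 * (7 / 10 * (371 / 100 / X s ^ 3 * (7 / 10))) ≤
            1000001 / 10 ^ 6 * (7 / 10 * (371 / 100 / X s ^ 3 * (7 / 10))) := by
          gcongr
          norm_num; linarith
        linarith
      have h5 := hV3 s hs
      have h6 : (1000001 : ℝ) / 10 ^ 6 * (7 / 10 * (371 / 100 / X s ^ 3 * (7 / 10))) ≤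
          53 / 100 * (344 / 100 / X s ^ 3) := by
        have e7 : (1000001 : ℝ) / 10 ^ 6 * (7 / 10 * (371 / 100 / X s ^ 3 * (7 / 10))) =
          (1000001 / 10 ^ 6 * (7 / 10 * (371 / 100 * (7 / 10)))) / X s ^ 3 := by ring
        have e8 : (53 : ℝ) / 100 * (344 / 100 / X s ^ 3) = (53 / 100 * (344 / 100)) / X s ^ 3 := by
          ring
        rw [e7, e8]
        apply div_le_div_of_nonneg_right _ (by positivity)
        norm_num
      linarith
  -- conclusions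
  have hXT := hX0 T hTT
  have hXT0 := hX0 T0 hT0
  have hXTpos : 0 < X T := by linarith
  have hXT0pos : 0 < X T0 := by linarith
  have i1 : (X T0)⁻¹ ≤ 1000 / 1889 := by
    rw [inv_le_comm₀ hXT0pos (by norm_num)]; norm_num; linarith
  have i4 : 0 ≤ (X T)⁻¹ := by positivity
  have hHT : Hb m (B T) (Q T) ≤ -(3133 / 1000) := by
    norm_num at i1 hh ⊢
    linarith
  have hLT : 276 / 1000 ≤ dtm (B T) (Q T) := by
    norm_num at i1 hl ⊢
    linarith
  have hWT : 152 / 1000 ≤ V T ^ 2 := by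
    have j1 := hW T hTT
    have j2 : 0 ≤ (X T ^ 3)⁻¹ := by positivity
    linarith
  have hVT : 35 / 100 ≤ V T := (hc T hTT).v
  set r := ‖B T‖ with hr
  have hr1 := (hc T hTT).b1
  have hr2 := (hc T hTT).b2
  rw [← hr] at hr1 hr2
  have hr0 : 0 < r := by linarith
  have hlr : dtm (B T) (Q T) ^ 2 ≤ r ^ 2 * ‖Q T‖ ^ 2 := by
    rw [hr, ← lagr]; nlinarith [sq_nonneg (ip (B T) (Q T))]
  have hll : (276 / 1000 : ℝ) ^ 2 ≤ dtm (B T) (Q T) ^ 2 := by gcongr
  have hQ2 : ‖Q T‖ ^ 2 = 2 * (Hb m (B T) (Q T) + (m 1 + m 2) * (1 / r)) := by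
    rw [Hb, ← hr]; ring
  have hmain0 : r ^ 2 * ‖Q T‖ ^ 2 ≤ 2 * (-(3133 / 1000)) * r ^ 2 + 2 * (2000002 / 10 ^ 6) * r := by
    have k1 : r ^ 2 * ‖Q T‖ ^ 2 = 2 * Hb m (B T) (Q T) * r ^ 2 + 2 * (m 1 + m 2) * r := by
      rw [hQ2]; field_simp
    have k2 : 2 * Hb m (B T) (Q T) * r ^ 2 ≤ 2 * (-(3133 / 1000)) * r ^ 2 := by gcongr
    have k3 : 2 * (m 1 + m 2) * r ≤ 2 * (2000002 / 10 ^ 6) * r := by
      apply mul_le_mul_of_nonneg_right _ hr0.le
      norm_num; linarith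
    linarith
  have hmain : (276 / 1000 : ℝ) ^ 2 ≤ 2 * (-(3133 / 1000)) * r ^ 2 + 2 * (2000002 / 10 ^ 6) * r := by
    linarith
  refine ⟨hXt T hTT, ⟨?_, ?_, ?_, ?_⟩, ?_, ?_⟩
  · show 35 / 100 < V T
    nlinarith
  · rcases lt_or_eq_of_le hr1 with h | h
    · exact h
    · exfalso
      rw [← h] at hmain
      norm_num at hmain
  · rcases lt_or_eq_of_le hr2 with h | h
    · exact h
    · exfalso
      rw [h] at hmain
      norm_num at hmain
  · have k6 : (‖Q T‖ * r) ^ 2 < (83 / 100) ^ 2 := by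
      have : (‖Q T‖ * r) ^ 2 = r ^ 2 * ‖Q T‖ ^ 2 := by ring
      rw [this]
      norm_num at hmain0 ⊢
      nlinarith [sq_nonneg (r - 32 / 100)]
    exact lt_of_pow_lt_pow_left₀ 2 (by norm_num) k6
  · linarith [hYa T hTT, hY0 T hTT]
  · linarith [hYc T hTT, hY0 T hTT]

end Pool.Agent.T9h50.TM
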