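import Pool.Agent.T9h50.TM.Esc2

/-!
# Escape of one of three comparable bodies: conclusion
-/

set_option autoImplicit false

open scoped NNReal ComplexConjugate Topology
open Complex Set Filter
open Pool.Agent.T9h50.TB (E kd kd_lip kd_eq norm_kd_le kd_rot ip dtm ip_self lagr abs_ip_le abs_dtm_le
  RR Hb hasDerivAt_re hasDerivAt_im hasDerivAt_ip hasDerivAt_dtm hasDerivAt_inv_norm le_of_deriv
  forall_pos_of_step kd_congr)

namespace Pool.Agent.T9h50.TM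

/-- the conditions on a state which imply escape -/
structure EscC (P0 : Par) (m : Fin 3 → ℝ) (x : E) : Prop where
  X : 1889 / 1000 ≤ cmp (RR m x.1 x.2.1)
  V : 1857 / 1000 ≤ cmp (RR m (P0.sg • x.2.2.1) (P0.sg • x.2.2.2))
  h : Hb m x.2.1 (P0.sg • x.2.2.2) ≤ -(361 / 100)
  l : 557 / 1000 ≤ dtm x.2.1 (P0.sg • x.2.2.2)
  b1 : 1 / 100 < ‖x.2.1‖
  b2 : ‖x.2.1‖ < 7 / 10
  q : ‖P0.sg • x.2.2.2‖ * ‖x.2.1‖ < 83 / 100

theorem escape {P0 : Par} {m : Fin 3 → ℝ} (hm : NearM (1 / 10 ^ 6) m) (hdA : P0.dA ≤ 3 / 2) (hdC0 : P0.dC ≤ 3 / 2)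
    (hdB : P0.dB ≤ 1 / 100) {y : ℝ → E} {T0 : ℝ}
    (hy : ∀ t, T0 ≤ t → HasDerivAt y (fld P0 m (y t)) t) (h0 : EscC P0 m (y T0)) {t : ℝ} (ht : T0 ≤ t) :
    3 / 2 + 35 / 100 * (t - T0) ≤ ‖(y t).1‖ ∧ Far P0 0 (y t) := by
  have hm' := hm.bounds
  obtain ⟨⟨m0, m0'⟩, ⟨m1, m1'⟩, ⟨m2, m2'⟩⟩ := hm'
  norm_num at m0 m0' m1 m1' m2 m2'
  have hM : 0 < m 1 + m 2 := by linarith
  have h1 : ∀ s, T0 ≤ s → HasDerivAt (fun s => (y s).1) (P0.sg • (y s).2.2.1) s := fun s hs =>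
    (hy s hs).fst
  have h2 : ∀ s, T0 ≤ s → HasDerivAt (fun s => (y s).2.1) (P0.sg • (y s).2.2.2) s := fun s hs =>
    (hy s hs).snd.fst
  have h3 : ∀ s, T0 ≤ s → HasDerivAt (fun s => P0.sg • (y s).2.2.1) (FA P0 m (y s).1 (y s).2.1) s := by
    intro s hs
    have h : HasDerivAt (fun s => (y s).2.2.1) (P0.sg⁻¹ • FA P0 m (y s).1 (y s).2.1) s :=
      (hy s hs).snd.snd.fst
    refine (h.const_smul P0.sg).congr_deriv ?_
    show P0.sg • (P0.sg⁻¹ • FA P0 m (y s).1 (y s).2.1) = _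
    rw [smul_smul, mul_inv_cancel₀ P0.sg0.ne', one_smul]
  have h4 : ∀ s, T0 ≤ s → HasDerivAt (fun s => P0.sg • (y s).2.2.2) (FB P0 m (y s).1 (y s).2.1) s := by
    intro s hs
    have h : HasDerivAt (fun s => (y s).2.2.2) (P0.sg⁻¹ • FB P0 m (y s).1 (y s).2.1) s :=
      (hy s hs).snd.snd.snd
    refine (h.const_smul P0.sg).congr_deriv ?_
    show P0.sg • (P0.sg⁻¹ • FB P0 m (y s).1 (y s).2.1) = _
    rw [smul_smul, mul_inv_cancel₀ P0.sg0.ne', one_smul]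
  set V : ℝ → ℝ := fun s => cmp (RR m (P0.sg • (y s).2.2.1) (P0.sg • (y s).2.2.2)) with hV
  set g : ℝ → ℝ := fun s => min (min (V s - 35 / 100) (‖(y s).2.1‖ - 1 / 100))
    (min (7 / 10 - ‖(y s).2.1‖) (83 / 100 - ‖P0.sg • (y s).2.2.2‖ * ‖(y s).2.1‖)) with hg
  have hgpos : ∀ s, 0 < g s ↔ (35 / 100 < V s ∧ 1 / 100 < ‖(y s).2.1‖ ∧ ‖(y s).2.1‖ < 7 / 10 ∧
      ‖P0.sg • (y s).2.2.2‖ * ‖(y s).2.1‖ < 83 / 100) := by
    intro s
    simp only [g, lt_min_iff, sub_pos]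
    tauto
  have hcnd : ∀ s, 0 < g s → Cnd m (y s).1 (y s).2.1 (P0.sg • (y s).2.2.1) (P0.sg • (y s).2.2.2) := by
    intro s hs
    obtain ⟨a1, a2, a3, a4⟩ := (hgpos s).1 hs
    exact ⟨a1.le, a2.le, a3.le, a4.le⟩
  have hcont : ContinuousOn g (Ici T0) := by
    intro s hs
    have c1 := (h2 s hs).continuousAt
    have c2 := (h4 s hs).continuousAt
    have c3 : ContinuousAt V s :=
      (hasDerivAt_cmp ((h3 s hs).fun_add ((h4 s hs).const_smul (m 2 / (m 1 + m 2))))).continuousAt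
    have c4 : ContinuousAt g s := ((c3.sub continuousAt_const).min (c1.norm.sub continuousAt_const)).min
      ((continuousAt_const.sub c1.norm).min (continuousAt_const.sub (c2.norm.mul c1.norm)))
    exact c4.continuousWithinAt
  have hg0 : 0 < g T0 := by
    rw [hgpos]
    refine ⟨?_, h0.b1, h0.b2, h0.q⟩
    have := h0.V
    simp only [V]
    linarith
  have himp : ∀ T, T0 ≤ T → (∀ s, T0 ≤ s → s ≤ T →
      Cnd m (y s).1 (y s).2.1 (P0.sg • (y s).2.2.1) (P0.sg • (y s).2.2.2)) →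
      (cmp (RR m (y T0).1 (y T0).2.1) + 35 / 100 * (T - T0) ≤ cmp (RR m (y T).1 (y T).2.1)) ∧
      0 < g T ∧ (3 / 2 ≤ ‖(y T).1‖ ∧ 3 / 2 ≤ ‖(y T).1 + (y T).2.1‖) := by
    intro T hT hc
    have := cnd_improve hm hdA hdC0 hdB hT (A := fun s => (y s).1) (B := fun s => (y s).2.1)
      (P := fun s => P0.sg • (y s).2.2.1) (Q := fun s => P0.sg • (y s).2.2.2)
      (fun s hs => h1 s hs.1) (fun s hs => h2 s hs.1) (fun s hs => h3 s hs.1)
      (fun s hs => h4 s hs.1) h0.X h0.V h0.h h0.l (fun s hs => hc s hs.1 hs.2)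
    rw [hgpos]
    exact this
  have hall : ∀ T, T0 ≤ T → 0 < g T := by
    apply forall_pos_of_step hcont hg0
    intro T hT hlt
    have hcl : Cnd m (y T).1 (y T).2.1 (P0.sg • (y T).2.2.1) (P0.sg • (y T).2.2.2) := by
      have c1 := (h2 T hT.le).continuousAt
      have c2 := (h4 T hT.le).continuousAt
      have c3 : ContinuousAt V T :=
        (hasDerivAt_cmp ((h3 T hT.le).fun_add ((h4 T hT.le).const_smul (m 2 / (m 1 + m 2))))).continuousAt
      have hev : ∀ᶠ s in 𝓝[<] T, 0 < g s := by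
        have : Ioo T0 T ∈ 𝓝[<] T := Ioo_mem_nhdsLT hT
        filter_upwards [this] with s hs
        exact hlt s hs.1.le hs.2
      refine ⟨?_, ?_, ?_, ?_⟩
      · exact ge_of_tendsto (c3.tendsto.mono_left nhdsWithin_le_nhds)
          (hev.mono fun s hs => ((hgpos s).1 hs).1.le)
      · exact ge_of_tendsto (c1.norm.tendsto.mono_left nhdsWithin_le_nhds)
          (hev.mono fun s hs => ((hgpos s).1 hs).2.1.le)
      · exact le_of_tendsto (c1.norm.tendsto.mono_left nhdsWithin_le_nhds)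
          (hev.mono fun s hs => ((hgpos s).1 hs).2.2.1.le)
      · exact le_of_tendsto ((c2.norm.mul c1.norm).tendsto.mono_left nhdsWithin_le_nhds)
          (hev.mono fun s hs => ((hgpos s).1 hs).2.2.2.le)
    refine (himp T hT.le fun s hs hsT => ?_).2.1
    rcases lt_or_eq_of_le hsT with h | h
    · exact hcnd s (hlt s hs h)
    · rw [h]; exact hcl
  obtain ⟨i1, i2, i3, i4⟩ := himp t ht (fun s hs _ => hcnd s (hall s hs))
  obtain ⟨a1, a2, a3, a4⟩ := (hgpos t).1 i2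
  refine ⟨?_, ?_, ?_, ?_⟩
  · have j1 : cmp (RR m (y t).1 (y t).2.1) ≤ ‖RR m (y t).1 (y t).2.1‖ :=
      (le_abs_self _).trans (abs_cmp_le _)
    have hμ0 : 0 < m 2 / (m 1 + m 2) := by apply div_pos <;> linarith
    have hμ1 : m 2 / (m 1 + m 2) ≤ 501 / 1000 := by rw [div_le_iff₀ hM]; linarith
    have j2 : ‖RR m (y t).1 (y t).2.1‖ ≤ ‖(y t).1‖ + m 2 / (m 1 + m 2) * ‖(y t).2.1‖ := by
      rw [RR]
      refine (norm_add_le _ _).trans ?_
      rw [norm_smul, Real.norm_of_nonneg hμ0.le]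
    have j3 : m 2 / (m 1 + m 2) * ‖(y t).2.1‖ ≤ 501 / 1000 * (7 / 10) := by gcongr
    have := h0.X
    linarith
  · linarith
  · linarith
  · linarith

end Pool.Agent.T9h50.TM
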