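import Pool.Agent.T9h50.TM.K21

/-!
# Steps of the numerical integration
-/

set_option autoImplicit false
set_option exponentiation.threshold 200000

namespace Pool.Agent.T9h50.TM

theorem run8_0 : run (Int.ofNat 1024) 62951 108655 62972 DG0 DR0 38 9 u8 = some v8a := by
  decide +kernel

end Pool.Agent.T9h50.TM
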