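import Pool.Agent.T9h50.TB.Num

/-!
# Integer arithmetic for the numerical integration

Polynomials with integer coefficients are packed into one integer: the value at `X = 2 ^ 768`.
-/

set_option autoImplicit false

namespace Pool.Agent.T9h50.TM

open Pool.Agent.T9h50.TB (fI fI_eq fN fN_eq)

/-- the base of the packing, `2 ^ 768` -/
@[irreducible] def XN : Nat := Nat.pow 2 768

/-- `2 ^ 480` -/
def S3 : Int := Int.ofNat (Nat.pow 2 480)

/-- `2 ^ 640` -/
def S4 : Int := Int.ofNat (Nat.pow 2 640)

/-- all the digits of this number are `2 ^ 767` (164 digits) -/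
def HH : Int := Int.ofNat (Nat.mul (Nat.pow 2 767)
  (Nat.div (Nat.sub (Nat.pow 2 125952) 1) (Nat.sub (Nat.pow 2 768) 1)))

/-- the signed digit number `k` of a packed polynomial -/
def dg (k : Nat) (V : Int) : Int :=
  Int.subNatNat (Nat.mod (Nat.shiftRight (Int.toNat (Int.add V HH)) (Nat.mul 768 k)) XN)
    (Nat.pow 2 767)

/-- rounded division by a positive integer -/
def rdiv (a b : Int) : Int := Int.ediv (Int.add (Int.mul 2 a) b) (Int.mul 2 b)

/-- the value of a polynomial at `X` -/
def pk : List Int → Int
  | [] => 0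
  | a :: p => Int.add a (Int.mul (Int.ofNat XN) (pk p))

/-- the data of a step: Taylor polynomials of the coordinates of `a`, `b` and of the inverses of
`|a|`, `|a + b|`, `|b|` -/
structure Ls where
  ax : List Int
  ay : List Int
  bx : List Int
  bt : List Int
  ga : List Int
  gc : List Int
  gb : List Int

/-- the state at the beginning of a step: the first two coefficients of the coordinates, and
approximations of the inverses of the distances -/
structure St where
  ax0 : Int
  ax1 : Int
  ay0 : Int
  ay1 : Int
  bx0 : Int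
  bx1 : Int
  bt0 : Int
  bt1 : Int
  ga0 : Int
  gc0 : Int
  gb0 : Int
  deriving DecidableEq

/-- Newton step for the inverse square root -/
def nwt (g n : Int) : Int :=
  Int.add g (rdiv (Int.mul g (Int.sub S4 (Int.mul (Int.mul g g) n))) (Int.mul 2 S4))

/-- the coefficients of the second derivative, from the coefficient number `k + 2` on -/
def der2 : Nat → List Int → List Int
  | _, [] => []
  | k, a :: p => Int.mul (Int.ofNat (Nat.mul (k + 1) (k + 2))) a :: der2 (k + 1) p

/-- sum of the coefficients -/
def sm : List Int → Int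
  | [] => 0
  | a :: p => Int.add a (sm p)

/-- sum of the coefficients of the derivative -/
def dsm : Nat → List Int → Int
  | _, [] => 0
  | k, a :: p => Int.add (Int.mul (Int.ofNat k) a) (dsm (k + 1) p)

/-- sum of the absolute values of the coefficients -/
def nrm : List Int → Nat
  | [] => 0
  | a :: p => Nat.add (Int.natAbs a) (nrm p)

/-- the digits of `V` (in base `X`) are at most `2 D`, and there are at most `fuel` of them -/
def chkN (D2 : Nat) : Nat → Nat → Bool
  | 0, V => Nat.beq V 0
  | n + 1, V => (Nat.ble (Nat.mod V XN) D2).and (chkN D2 n (Nat.div V XN))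

/-- the polynomial packed in `V` has at most `164` coefficients, all with absolute value at most `D` -/
def chk (D : Nat) (V : Int) : Bool :=
  Int.casesOn (motive := fun _ => Bool) (Int.add V (Int.ofNat (Nat.mul D
    (Nat.div (Nat.sub (Nat.pow 2 125952) 1) (Nat.sub (Nat.pow 2 768) 1)))))
    (fun n => chkN (Nat.mul 2 D) 164 n) (fun _ => false)

/-- the list begins with the two given integers -/
def hd2 (l : List Int) (x y : Int) : Bool :=
  match l with
  | a :: b :: _ => (a == x) && (b == y)
  | _ => false

/-- the state at the end of a step -/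
def nxt (L : Ls) : St :=
  ⟨sm L.ax, dsm 0 L.ax, sm L.ay, dsm 0 L.ay, sm L.bx, dsm 0 L.bx, sm L.bt, dsm 0 L.bt,
    sm L.ga, sm L.gc, sm L.gb⟩

/-- the coordinates of the state are the first coefficients -/
def chkS (L : Ls) (s : St) : Bool :=
  (hd2 L.ax s.ax0 s.ax1).and <| (hd2 L.ay s.ay0 s.ay1).and <| (hd2 L.bx s.bx0 s.bx1).and <|
  (hd2 L.bt s.bt0 s.bt1)

/-- evaluate a state -/
def fSt {α : Type} (s : St) (f : St → α) : α :=
  fI s.ax0 fun a0 => fI s.ax1 fun a1 => fI s.ay0 fun a2 => fI s.ay1 fun a3 =>
  fI s.bx0 fun a4 => fI s.bx1 fun a5 => fI s.bt0 fun a6 => fI s.bt1 fun a7 =>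
  fI s.ga0 fun a8 => fI s.gc0 fun a9 => fI s.gb0 fun a10 => f ⟨a0, a1, a2, a3, a4, a5, a6, a7, a8, a9, a10⟩

/-- evaluate a structure of lists -/
def fLs {α : Type} (L : Ls) (f : Ls → α) : α :=
  Ls.casesOn (motive := fun _ => α) L (fun a b c d e g h => f ⟨a, b, c, d, e, g, h⟩)

end Pool.Agent.T9h50.TM
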