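import Pool.Agent.T9h50.TM.Runs
import Pool.Agent.T9h50.TM.Esc3

/-!
# The phases of the numerical integration
-/

set_option autoImplicit false
set_option exponentiation.threshold 3000

open scoped NNReal ComplexConjugate Topology
open Complex Set Filter

namespace Pool.Agent.T9h50.TM

open Pool.Agent.T9h50.TB (E kd kd_eq ip dtm ip_self exists_forward RR Hb)

noncomputable def P0 : Par := ⟨3312 / 1000, 96807 / 100000, 99211 / 100000, 94982 / 100000, by norm_num,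
  by norm_num, by norm_num, by norm_num⟩
noncomputable def P1 : Par := ⟨4145 / 1000, 98494 / 100000, 76384 / 100000, 86830 / 100000, by norm_num,
  by norm_num, by norm_num, by norm_num⟩
noncomputable def P2 : Par := ⟨7167 / 1000, 106114 / 100000, 44444 / 100000, 98980 / 100000, by norm_num,
  by norm_num, by norm_num, by norm_num⟩
noncomputable def P3 : Par := ⟨4512 / 1000, 78763 / 100000, 69858 / 100000, 166271 / 100000, by norm_num,
  by norm_num, by norm_num, by norm_num⟩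
noncomputable def P4 : Par := ⟨6533 / 1000, 46244 / 100000, 127671 / 100000, 188468 / 100000, by norm_num,
  by norm_num, by norm_num, by norm_num⟩
noncomputable def P5 : Par := ⟨12602 / 1000, 29430 / 100000, 144677 / 100000, 154372 / 100000, by norm_num,
  by norm_num, by norm_num, by norm_num⟩
noncomputable def P6 : Par := ⟨6081 / 1000, 48170 / 100000, 201775 / 100000, 142412 / 100000, by norm_num,
  by norm_num, by norm_num, by norm_num⟩
noncomputable def P7 : Par := ⟨3364 / 1000, 81513 / 100000, 191392 / 100000, 84171 / 100000, by norm_num,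
  by norm_num, by norm_num, by norm_num⟩
noncomputable def P8 : Par := ⟨5221 / 1000, 62874 / 100000, 108574 / 100000, 62895 / 100000, by norm_num,
  by norm_num, by norm_num, by norm_num⟩
noncomputable def P9 : Par := ⟨9664 / 1000, 40582 / 100000, 94461 / 100000, 41113 / 100000, by norm_num,
  by norm_num, by norm_num, by norm_num⟩
noncomputable def P10 : Par := ⟨16011 / 1000, 61466 / 100000, 101885 / 100000, 25405 / 100000, by norm_num,
  by norm_num, by norm_num, by norm_num⟩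
noncomputable def P11 : Par := ⟨33692 / 1000, 82944 / 100000, 109155 / 100000, 15247 / 100000, by norm_num,
  by norm_num, by norm_num, by norm_num⟩
noncomputable def P12 : Par := ⟨68099 / 1000, 96410 / 100000, 105916 / 100000, 9523 / 100000, by norm_num,
  by norm_num, by norm_num, by norm_num⟩
noncomputable def P13 : Par := ⟨30710 / 1000, 122521 / 100000, 107434 / 100000, 16212 / 100000, by norm_num,
  by norm_num, by norm_num, by norm_num⟩
noncomputable def P14 : Par := ⟨11804 / 1000, 134913 / 100000, 120351 / 100000, 30852 / 100000, by norm_num,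
  by norm_num, by norm_num, by norm_num⟩
/-- the parameters for the whole solution -/
noncomputable def PG : Par := ⟨2001, 29 / 100, 44 / 100, 1 / 100, by norm_num, by norm_num,
  by norm_num, by norm_num⟩

noncomputable def Q0 : PH := ⟨P0, 8, 96887, 99291, 95062, 1512859 / 10 ^ 6⟩
noncomputable def Q1 : PH := ⟨P1, 16, 98574, 76462, 86909, 1295717 / 10 ^ 6⟩
noncomputable def Q2 : PH := ⟨P2, 64, 106195, 44519, 99060, 1118497 / 10 ^ 6⟩
noncomputable def Q3 : PH := ⟨P3, 32, 78841, 69936, 166358, 1151427 / 10 ^ 6⟩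
noncomputable def Q4 : PH := ⟨P4, 64, 46319, 127754, 188557, 1107472 / 10 ^ 6⟩
noncomputable def Q5 : PH := ⟨P5, 128, 29503, 144762, 154458, 1103465 / 10 ^ 6⟩
noncomputable def Q6 : PH := ⟨P6, 64, 48245, 201866, 142497, 1099678 / 10 ^ 6⟩
noncomputable def Q7 : PH := ⟨P7, 16, 81592, 191482, 84250, 1233989 / 10 ^ 6⟩
noncomputable def Q8 : PH := ⟨P8, 32, 62951, 108655, 62972, 1177223 / 10 ^ 6⟩
noncomputable def Q9 : PH := ⟨P9, 64, 40657, 94541, 41188, 1162999 / 10 ^ 6⟩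
noncomputable def Q10 : PH := ⟨P10, 128, 61543, 101966, 25478, 1133248 / 10 ^ 6⟩
noncomputable def Q11 : PH := ⟨P11, 256, 83023, 109236, 15319, 1140665 / 10 ^ 6⟩
noncomputable def Q12 : PH := ⟨P12, 512, 96490, 105997, 9594, 1142259 / 10 ^ 6⟩
noncomputable def Q13 : PH := ⟨P13, 256, 122604, 107515, 16284, 1127455 / 10 ^ 6⟩
noncomputable def Q14 : PH := ⟨P14, 128, 134997, 120434, 30926, 1096607 / 10 ^ 6⟩

lemma lip0 : LipOK P0 := by
  constructor
  · intro m hm
    obtain ⟨⟨h0, h0'⟩, ⟨h1, h1'⟩, ⟨h2, h2'⟩⟩ := hm.bounds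
    simp only [P0]
    norm_num at h0' h1' h2' ⊢
    linarith
  · intro m hm
    obtain ⟨⟨h0, h0'⟩, ⟨h1, h1'⟩, ⟨h2, h2'⟩⟩ := hm.bounds
    simp only [P0]
    norm_num at h0' h1' h2' ⊢
    linarith

lemma lip1 : LipOK P1 := by
  constructor
  · intro m hm
    obtain ⟨⟨h0, h0'⟩, ⟨h1, h1'⟩, ⟨h2, h2'⟩⟩ := hm.bounds
    simp only [P1]
    norm_num at h0' h1' h2' ⊢
    linarith
  · intro m hm
    obtain ⟨⟨h0, h0'⟩, ⟨h1, h1'⟩, ⟨h2, h2'⟩⟩ := hm.bounds
    simp only [P1]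
    norm_num at h0' h1' h2' ⊢
    linarith

lemma lip2 : LipOK P2 := by
  constructor
  · intro m hm
    obtain ⟨⟨h0, h0'⟩, ⟨h1, h1'⟩, ⟨h2, h2'⟩⟩ := hm.bounds
    simp only [P2]
    norm_num at h0' h1' h2' ⊢
    linarith
  · intro m hm
    obtain ⟨⟨h0, h0'⟩, ⟨h1, h1'⟩, ⟨h2, h2'⟩⟩ := hm.bounds
    simp only [P2]
    norm_num at h0' h1' h2' ⊢
    linarith

lemma lip3 : LipOK P3 := by
  constructor
  · intro m hm
    obtain ⟨⟨h0, h0'⟩, ⟨h1, h1'⟩, ⟨h2, h2'⟩⟩ := hm.bounds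
    simp only [P3]
    norm_num at h0' h1' h2' ⊢
    linarith
  · intro m hm
    obtain ⟨⟨h0, h0'⟩, ⟨h1, h1'⟩, ⟨h2, h2'⟩⟩ := hm.bounds
    simp only [P3]
    norm_num at h0' h1' h2' ⊢
    linarith

lemma lip4 : LipOK P4 := by
  constructor
  · intro m hm
    obtain ⟨⟨h0, h0'⟩, ⟨h1, h1'⟩, ⟨h2, h2'⟩⟩ := hm.bounds
    simp only [P4]
    norm_num at h0' h1' h2' ⊢
    linarith
  · intro m hm
    obtain ⟨⟨h0, h0'⟩, ⟨h1, h1'⟩, ⟨h2, h2'⟩⟩ := hm.bounds
    simp only [P4]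
    norm_num at h0' h1' h2' ⊢
    linarith

lemma lip5 : LipOK P5 := by
  constructor
  · intro m hm
    obtain ⟨⟨h0, h0'⟩, ⟨h1, h1'⟩, ⟨h2, h2'⟩⟩ := hm.bounds
    simp only [P5]
    norm_num at h0' h1' h2' ⊢
    linarith
  · intro m hm
    obtain ⟨⟨h0, h0'⟩, ⟨h1, h1'⟩, ⟨h2, h2'⟩⟩ := hm.bounds
    simp only [P5]
    norm_num at h0' h1' h2' ⊢
    linarith

lemma lip6 : LipOK P6 := by
  constructor
  · intro m hm
    obtain ⟨⟨h0, h0'⟩, ⟨h1, h1'⟩, ⟨h2, h2'⟩⟩ := hm.bounds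
    simp only [P6]
    norm_num at h0' h1' h2' ⊢
    linarith
  · intro m hm
    obtain ⟨⟨h0, h0'⟩, ⟨h1, h1'⟩, ⟨h2, h2'⟩⟩ := hm.bounds
    simp only [P6]
    norm_num at h0' h1' h2' ⊢
    linarith

lemma lip7 : LipOK P7 := by
  constructor
  · intro m hm
    obtain ⟨⟨h0, h0'⟩, ⟨h1, h1'⟩, ⟨h2, h2'⟩⟩ := hm.bounds
    simp only [P7]
    norm_num at h0' h1' h2' ⊢
    linarith
  · intro m hm
    obtain ⟨⟨h0, h0'⟩, ⟨h1, h1'⟩, ⟨h2, h2'⟩⟩ := hm.bounds
    simp only [P7]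
    norm_num at h0' h1' h2' ⊢
    linarith

lemma lip8 : LipOK P8 := by
  constructor
  · intro m hm
    obtain ⟨⟨h0, h0'⟩, ⟨h1, h1'⟩, ⟨h2, h2'⟩⟩ := hm.bounds
    simp only [P8]
    norm_num at h0' h1' h2' ⊢
    linarith
  · intro m hm
    obtain ⟨⟨h0, h0'⟩, ⟨h1, h1'⟩, ⟨h2, h2'⟩⟩ := hm.bounds
    simp only [P8]
    norm_num at h0' h1' h2' ⊢
    linarith

lemma lip9 : LipOK P9 := by
  constructor
  · intro m hm
    obtain ⟨⟨h0, h0'⟩, ⟨h1, h1'⟩, ⟨h2, h2'⟩⟩ := hm.bounds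
    simp only [P9]
    norm_num at h0' h1' h2' ⊢
    linarith
  · intro m hm
    obtain ⟨⟨h0, h0'⟩, ⟨h1, h1'⟩, ⟨h2, h2'⟩⟩ := hm.bounds
    simp only [P9]
    norm_num at h0' h1' h2' ⊢
    linarith

lemma lip10 : LipOK P10 := by
  constructor
  · intro m hm
    obtain ⟨⟨h0, h0'⟩, ⟨h1, h1'⟩, ⟨h2, h2'⟩⟩ := hm.bounds
    simp only [P10]
    norm_num at h0' h1' h2' ⊢
    linarith
  · intro m hm
    obtain ⟨⟨h0, h0'⟩, ⟨h1, h1'⟩, ⟨h2, h2'⟩⟩ := hm.bounds
    simp only [P10]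
    norm_num at h0' h1' h2' ⊢
    linarith

lemma lip11 : LipOK P11 := by
  constructor
  · intro m hm
    obtain ⟨⟨h0, h0'⟩, ⟨h1, h1'⟩, ⟨h2, h2'⟩⟩ := hm.bounds
    simp only [P11]
    norm_num at h0' h1' h2' ⊢
    linarith
  · intro m hm
    obtain ⟨⟨h0, h0'⟩, ⟨h1, h1'⟩, ⟨h2, h2'⟩⟩ := hm.bounds
    simp only [P11]
    norm_num at h0' h1' h2' ⊢
    linarith

lemma lip12 : LipOK P12 := by
  constructor
  · intro m hm
    obtain ⟨⟨h0, h0'⟩, ⟨h1, h1'⟩, ⟨h2, h2'⟩⟩ := hm.bounds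
    simp only [P12]
    norm_num at h0' h1' h2' ⊢
    linarith
  · intro m hm
    obtain ⟨⟨h0, h0'⟩, ⟨h1, h1'⟩, ⟨h2, h2'⟩⟩ := hm.bounds
    simp only [P12]
    norm_num at h0' h1' h2' ⊢
    linarith

lemma lip13 : LipOK P13 := by
  constructor
  · intro m hm
    obtain ⟨⟨h0, h0'⟩, ⟨h1, h1'⟩, ⟨h2, h2'⟩⟩ := hm.bounds
    simp only [P13]
    norm_num at h0' h1' h2' ⊢
    linarith
  · intro m hm
    obtain ⟨⟨h0, h0'⟩, ⟨h1, h1'⟩, ⟨h2, h2'⟩⟩ := hm.bounds
    simp only [P13]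
    norm_num at h0' h1' h2' ⊢
    linarith

lemma lip14 : LipOK P14 := by
  constructor
  · intro m hm
    obtain ⟨⟨h0, h0'⟩, ⟨h1, h1'⟩, ⟨h2, h2'⟩⟩ := hm.bounds
    simp only [P14]
    norm_num at h0' h1' h2' ⊢
    linarith
  · intro m hm
    obtain ⟨⟨h0, h0'⟩, ⟨h1, h1'⟩, ⟨h2, h2'⟩⟩ := hm.bounds
    simp only [P14]
    norm_num at h0' h1' h2' ⊢
    linarith

lemma lipG : LipOK PG := by
  constructor
  · intro m hm
    obtain ⟨⟨h0, h0'⟩, ⟨h1, h1'⟩, ⟨h2, h2'⟩⟩ := hm.bounds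
    simp only [PG]
    norm_num at h0' h1' h2' ⊢
    linarith
  · intro m hm
    obtain ⟨⟨h0, h0'⟩, ⟨h1, h1'⟩, ⟨h2, h2'⟩⟩ := hm.bounds
    simp only [PG]
    norm_num at h0' h1' h2' ⊢
    linarith

lemma exp0 : Real.exp ((3312 / 1000 : ℝ) / 8) ≤ 1512859 / 10 ^ 6 := by
  refine (Real.exp_bound' (by norm_num) (by norm_num) (n := 10) (by norm_num)).trans ?_
  norm_num [Finset.sum_range_succ, Nat.factorial]
lemma exp1 : Real.exp ((4145 / 1000 : ℝ) / 16) ≤ 1295717 / 10 ^ 6 := by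
  refine (Real.exp_bound' (by norm_num) (by norm_num) (n := 10) (by norm_num)).trans ?_
  norm_num [Finset.sum_range_succ, Nat.factorial]
lemma exp2 : Real.exp ((7167 / 1000 : ℝ) / 64) ≤ 1118497 / 10 ^ 6 := by
  refine (Real.exp_bound' (by norm_num) (by norm_num) (n := 10) (by norm_num)).trans ?_
  norm_num [Finset.sum_range_succ, Nat.factorial]
lemma exp3 : Real.exp ((4512 / 1000 : ℝ) / 32) ≤ 1151427 / 10 ^ 6 := by
  refine (Real.exp_bound' (by norm_num) (by norm_num) (n := 10) (by norm_num)).trans ?_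
  norm_num [Finset.sum_range_succ, Nat.factorial]
lemma exp4 : Real.exp ((6533 / 1000 : ℝ) / 64) ≤ 1107472 / 10 ^ 6 := by
  refine (Real.exp_bound' (by norm_num) (by norm_num) (n := 10) (by norm_num)).trans ?_
  norm_num [Finset.sum_range_succ, Nat.factorial]
lemma exp5 : Real.exp ((12602 / 1000 : ℝ) / 128) ≤ 1103465 / 10 ^ 6 := by
  refine (Real.exp_bound' (by norm_num) (by norm_num) (n := 10) (by norm_num)).trans ?_
  norm_num [Finset.sum_range_succ, Nat.factorial]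
lemma exp6 : Real.exp ((6081 / 1000 : ℝ) / 64) ≤ 1099678 / 10 ^ 6 := by
  refine (Real.exp_bound' (by norm_num) (by norm_num) (n := 10) (by norm_num)).trans ?_
  norm_num [Finset.sum_range_succ, Nat.factorial]
lemma exp7 : Real.exp ((3364 / 1000 : ℝ) / 16) ≤ 1233989 / 10 ^ 6 := by
  refine (Real.exp_bound' (by norm_num) (by norm_num) (n := 10) (by norm_num)).trans ?_
  norm_num [Finset.sum_range_succ, Nat.factorial]
lemma exp8 : Real.exp ((5221 / 1000 : ℝ) / 32) ≤ 1177223 / 10 ^ 6 := by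
  refine (Real.exp_bound' (by norm_num) (by norm_num) (n := 10) (by norm_num)).trans ?_
  norm_num [Finset.sum_range_succ, Nat.factorial]
lemma exp9 : Real.exp ((9664 / 1000 : ℝ) / 64) ≤ 1162999 / 10 ^ 6 := by
  refine (Real.exp_bound' (by norm_num) (by norm_num) (n := 10) (by norm_num)).trans ?_
  norm_num [Finset.sum_range_succ, Nat.factorial]
lemma exp10 : Real.exp ((16011 / 1000 : ℝ) / 128) ≤ 1133248 / 10 ^ 6 := by
  refine (Real.exp_bound' (by norm_num) (by norm_num) (n := 10) (by norm_num)).trans ?_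
  norm_num [Finset.sum_range_succ, Nat.factorial]
lemma exp11 : Real.exp ((33692 / 1000 : ℝ) / 256) ≤ 1140665 / 10 ^ 6 := by
  refine (Real.exp_bound' (by norm_num) (by norm_num) (n := 10) (by norm_num)).trans ?_
  norm_num [Finset.sum_range_succ, Nat.factorial]
lemma exp12 : Real.exp ((68099 / 1000 : ℝ) / 512) ≤ 1142259 / 10 ^ 6 := by
  refine (Real.exp_bound' (by norm_num) (by norm_num) (n := 10) (by norm_num)).trans ?_
  norm_num [Finset.sum_range_succ, Nat.factorial]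
lemma exp13 : Real.exp ((30710 / 1000 : ℝ) / 256) ≤ 1127455 / 10 ^ 6 := by
  refine (Real.exp_bound' (by norm_num) (by norm_num) (n := 10) (by norm_num)).trans ?_
  norm_num [Finset.sum_range_succ, Nat.factorial]
lemma exp14 : Real.exp ((11804 / 1000 : ℝ) / 128) ≤ 1096607 / 10 ^ 6 := by
  refine (Real.exp_bound' (by norm_num) (by norm_num) (n := 10) (by norm_num)).trans ?_
  norm_num [Finset.sum_range_succ, Nat.factorial]

lemma ok0 : PHok Q0 where
  H0 := by norm_num [Q0]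
  H2 := by norm_num [Q0]
  ca := by norm_num [Q0]
  cc := by norm_num [Q0]
  cb := by norm_num [Q0]
  hA := by norm_num [Q0, P0]
  hC := by norm_num [Q0, P0]
  hB := by norm_num [Q0, P0]
  dA := by norm_num [Q0, P0]
  dC := by norm_num [Q0, P0]
  dB := by norm_num [Q0, P0]
  lip := lip0
  sg1 := by norm_num [Q0, P0]
  exp := by
    have := exp0
    simp only [Q0, P0]
    exact_mod_cast this
  gr1 := by norm_num [Q0]

lemma ok1 : PHok Q1 where
  H0 := by norm_num [Q1]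
  H2 := by norm_num [Q1]
  ca := by norm_num [Q1]
  cc := by norm_num [Q1]
  cb := by norm_num [Q1]
  hA := by norm_num [Q1, P1]
  hC := by norm_num [Q1, P1]
  hB := by norm_num [Q1, P1]
  dA := by norm_num [Q1, P1]
  dC := by norm_num [Q1, P1]
  dB := by norm_num [Q1, P1]
  lip := lip1
  sg1 := by norm_num [Q1, P1]
  exp := by
    have := exp1
    simp only [Q1, P1]
    exact_mod_cast this
  gr1 := by norm_num [Q1]

lemma ok2 : PHok Q2 where
  H0 := by norm_num [Q2]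
  H2 := by norm_num [Q2]
  ca := by norm_num [Q2]
  cc := by norm_num [Q2]
  cb := by norm_num [Q2]
  hA := by norm_num [Q2, P2]
  hC := by norm_num [Q2, P2]
  hB := by norm_num [Q2, P2]
  dA := by norm_num [Q2, P2]
  dC := by norm_num [Q2, P2]
  dB := by norm_num [Q2, P2]
  lip := lip2
  sg1 := by norm_num [Q2, P2]
  exp := by
    have := exp2
    simp only [Q2, P2]
    exact_mod_cast this
  gr1 := by norm_num [Q2]

lemma ok3 : PHok Q3 where
  H0 := by norm_num [Q3]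
  H2 := by norm_num [Q3]
  ca := by norm_num [Q3]
  cc := by norm_num [Q3]
  cb := by norm_num [Q3]
  hA := by norm_num [Q3, P3]
  hC := by norm_num [Q3, P3]
  hB := by norm_num [Q3, P3]
  dA := by norm_num [Q3, P3]
  dC := by norm_num [Q3, P3]
  dB := by norm_num [Q3, P3]
  lip := lip3
  sg1 := by norm_num [Q3, P3]
  exp := by
    have := exp3
    simp only [Q3, P3]
    exact_mod_cast this
  gr1 := by norm_num [Q3]

lemma ok4 : PHok Q4 where
  H0 := by norm_num [Q4]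
  H2 := by norm_num [Q4]
  ca := by norm_num [Q4]
  cc := by norm_num [Q4]
  cb := by norm_num [Q4]
  hA := by norm_num [Q4, P4]
  hC := by norm_num [Q4, P4]
  hB := by norm_num [Q4, P4]
  dA := by norm_num [Q4, P4]
  dC := by norm_num [Q4, P4]
  dB := by norm_num [Q4, P4]
  lip := lip4
  sg1 := by norm_num [Q4, P4]
  exp := by
    have := exp4
    simp only [Q4, P4]
    exact_mod_cast this
  gr1 := by norm_num [Q4]

lemma ok5 : PHok Q5 where
  H0 := by norm_num [Q5]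
  H2 := by norm_num [Q5]
  ca := by norm_num [Q5]
  cc := by norm_num [Q5]
  cb := by norm_num [Q5]
  hA := by norm_num [Q5, P5]
  hC := by norm_num [Q5, P5]
  hB := by norm_num [Q5, P5]
  dA := by norm_num [Q5, P5]
  dC := by norm_num [Q5, P5]
  dB := by norm_num [Q5, P5]
  lip := lip5
  sg1 := by norm_num [Q5, P5]
  exp := by
    have := exp5
    simp only [Q5, P5]
    exact_mod_cast this
  gr1 := by norm_num [Q5]

lemma ok6 : PHok Q6 where
  H0 := by norm_num [Q6]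
  H2 := by norm_num [Q6]
  ca := by norm_num [Q6]
  cc := by norm_num [Q6]
  cb := by norm_num [Q6]
  hA := by norm_num [Q6, P6]
  hC := by norm_num [Q6, P6]
  hB := by norm_num [Q6, P6]
  dA := by norm_num [Q6, P6]
  dC := by norm_num [Q6, P6]
  dB := by norm_num [Q6, P6]
  lip := lip6
  sg1 := by norm_num [Q6, P6]
  exp := by
    have := exp6
    simp only [Q6, P6]
    exact_mod_cast this
  gr1 := by norm_num [Q6]

lemma ok7 : PHok Q7 where
  H0 := by norm_num [Q7]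
  H2 := by norm_num [Q7]
  ca := by norm_num [Q7]
  cc := by norm_num [Q7]
  cb := by norm_num [Q7]
  hA := by norm_num [Q7, P7]
  hC := by norm_num [Q7, P7]
  hB := by norm_num [Q7, P7]
  dA := by norm_num [Q7, P7]
  dC := by norm_num [Q7, P7]
  dB := by norm_num [Q7, P7]
  lip := lip7
  sg1 := by norm_num [Q7, P7]
  exp := by
    have := exp7
    simp only [Q7, P7]
    exact_mod_cast this
  gr1 := by norm_num [Q7]

lemma ok8 : PHok Q8 where
  H0 := by norm_num [Q8]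
  H2 := by norm_num [Q8]
  ca := by norm_num [Q8]
  cc := by norm_num [Q8]
  cb := by norm_num [Q8]
  hA := by norm_num [Q8, P8]
  hC := by norm_num [Q8, P8]
  hB := by norm_num [Q8, P8]
  dA := by norm_num [Q8, P8]
  dC := by norm_num [Q8, P8]
  dB := by norm_num [Q8, P8]
  lip := lip8
  sg1 := by norm_num [Q8, P8]
  exp := by
    have := exp8
    simp only [Q8, P8]
    exact_mod_cast this
  gr1 := by norm_num [Q8]

lemma ok9 : PHok Q9 where
  H0 := by norm_num [Q9]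
  H2 := by norm_num [Q9]
  ca := by norm_num [Q9]
  cc := by norm_num [Q9]
  cb := by norm_num [Q9]
  hA := by norm_num [Q9, P9]
  hC := by norm_num [Q9, P9]
  hB := by norm_num [Q9, P9]
  dA := by norm_num [Q9, P9]
  dC := by norm_num [Q9, P9]
  dB := by norm_num [Q9, P9]
  lip := lip9
  sg1 := by norm_num [Q9, P9]
  exp := by
    have := exp9
    simp only [Q9, P9]
    exact_mod_cast this
  gr1 := by norm_num [Q9]

lemma ok10 : PHok Q10 where
  H0 := by norm_num [Q10]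
  H2 := by norm_num [Q10]
  ca := by norm_num [Q10]
  cc := by norm_num [Q10]
  cb := by norm_num [Q10]
  hA := by norm_num [Q10, P10]
  hC := by norm_num [Q10, P10]
  hB := by norm_num [Q10, P10]
  dA := by norm_num [Q10, P10]
  dC := by norm_num [Q10, P10]
  dB := by norm_num [Q10, P10]
  lip := lip10
  sg1 := by norm_num [Q10, P10]
  exp := by
    have := exp10
    simp only [Q10, P10]
    exact_mod_cast this
  gr1 := by norm_num [Q10]

lemma ok11 : PHok Q11 where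
  H0 := by norm_num [Q11]
  H2 := by norm_num [Q11]
  ca := by norm_num [Q11]
  cc := by norm_num [Q11]
  cb := by norm_num [Q11]
  hA := by norm_num [Q11, P11]
  hC := by norm_num [Q11, P11]
  hB := by norm_num [Q11, P11]
  dA := by norm_num [Q11, P11]
  dC := by norm_num [Q11, P11]
  dB := by norm_num [Q11, P11]
  lip := lip11
  sg1 := by norm_num [Q11, P11]
  exp := by
    have := exp11
    simp only [Q11, P11]
    exact_mod_cast this
  gr1 := by norm_num [Q11]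

lemma ok12 : PHok Q12 where
  H0 := by norm_num [Q12]
  H2 := by norm_num [Q12]
  ca := by norm_num [Q12]
  cc := by norm_num [Q12]
  cb := by norm_num [Q12]
  hA := by norm_num [Q12, P12]
  hC := by norm_num [Q12, P12]
  hB := by norm_num [Q12, P12]
  dA := by norm_num [Q12, P12]
  dC := by norm_num [Q12, P12]
  dB := by norm_num [Q12, P12]
  lip := lip12
  sg1 := by norm_num [Q12, P12]
  exp := by
    have := exp12
    simp only [Q12, P12]
    exact_mod_cast this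
  gr1 := by norm_num [Q12]

lemma ok13 : PHok Q13 where
  H0 := by norm_num [Q13]
  H2 := by norm_num [Q13]
  ca := by norm_num [Q13]
  cc := by norm_num [Q13]
  cb := by norm_num [Q13]
  hA := by norm_num [Q13, P13]
  hC := by norm_num [Q13, P13]
  hB := by norm_num [Q13, P13]
  dA := by norm_num [Q13, P13]
  dC := by norm_num [Q13, P13]
  dB := by norm_num [Q13, P13]
  lip := lip13
  sg1 := by norm_num [Q13, P13]
  exp := by
    have := exp13
    simp only [Q13, P13]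
    exact_mod_cast this
  gr1 := by norm_num [Q13]

lemma ok14 : PHok Q14 where
  H0 := by norm_num [Q14]
  H2 := by norm_num [Q14]
  ca := by norm_num [Q14]
  cc := by norm_num [Q14]
  cb := by norm_num [Q14]
  hA := by norm_num [Q14, P14]
  hC := by norm_num [Q14, P14]
  hB := by norm_num [Q14, P14]
  dA := by norm_num [Q14, P14]
  dC := by norm_num [Q14, P14]
  dB := by norm_num [Q14, P14]
  lip := lip14
  sg1 := by norm_num [Q14, P14]
  exp := by
    have := exp14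
    simp only [Q14, P14]
    exact_mod_cast this
  gr1 := by norm_num [Q14]

lemma DG0_le : (DG0 : ℝ) ≤ 2 ^ 640 / 10 ^ 41 := by
  have h : DG0 * 10 ^ 41 ≤ 2 ^ 640 := Nat.div_mul_le_self _ _
  rw [le_div_iff₀ (by positivity)]
  exact_mod_cast h

lemma DR0_le : (DR0 : ℝ) ≤ 2 ^ 640 / (2 * 10 ^ 37) := by
  have h : DR0 * (2 * 10 ^ 37) ≤ 2 ^ 640 := Nat.div_mul_le_self _ _
  rw [le_div_iff₀ (by positivity)]
  exact_mod_cast h

/-! ### Changes of the parameters -/

lemma cnv_fld {P Q : Par} {m : Fin 3 → ℝ} {x : E} (hP : Far P 0 x) (hQ : Far Q 0 x) :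
    cnv P Q (fld P m x) = fld Q m (cnv P Q x) := by
  obtain ⟨h1, h2, h3⟩ := hP
  obtain ⟨k1, k2, k3⟩ := hQ
  rw [add_zero] at h1 h2 h3 k1 k2 k3
  have hp := P.sg0.ne'
  have hq := Q.sg0.ne'
  refine Prod.ext ?_ (Prod.ext ?_ (Prod.ext ?_ ?_))
  · show P.sg • x.2.2.1 = Q.sg • ((P.sg / Q.sg) • x.2.2.1)
    rw [smul_smul]; congr 1; field_simp
  · show P.sg • x.2.2.2 = Q.sg • ((P.sg / Q.sg) • x.2.2.2)
    rw [smul_smul]; congr 1; field_simp
  · show (P.sg / Q.sg) • (P.sg⁻¹ • FA P m x.1 x.2.1) = Q.sg⁻¹ • FA Q m x.1 x.2.1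
    rw [smul_smul, FA_congr h1 h2 h3 k1 k2 k3]; congr 1; field_simp
  · show (P.sg / Q.sg) • (P.sg⁻¹ • FB P m x.1 x.2.1) = Q.sg⁻¹ • FB Q m x.1 x.2.1
    rw [smul_smul, FB_congr h1 h2 h3 k1 k2 k3]; congr 1; field_simp

lemma cnv_cnv (P Q R : Par) (x : E) : cnv Q R (cnv P Q x) = cnv P R x := by
  have hp := P.sg0.ne'
  have hq := Q.sg0.ne'
  have hr := R.sg0.ne'
  refine Prod.ext rfl (Prod.ext rfl (Prod.ext ?_ ?_))
  · show (Q.sg / R.sg) • ((P.sg / Q.sg) • x.2.2.1) = (P.sg / R.sg) • x.2.2.1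
    rw [smul_smul]; congr 1; field_simp
  · show (Q.sg / R.sg) • ((P.sg / Q.sg) • x.2.2.2) = (P.sg / R.sg) • x.2.2.2
    rw [smul_smul]; congr 1; field_simp

lemma cnv_self (P : Par) (x : E) : cnv P P x = x := by
  have hp := P.sg0.ne'
  refine Prod.ext rfl (Prod.ext rfl (Prod.ext ?_ ?_))
  · show (P.sg / P.sg) • x.2.2.1 = x.2.2.1
    rw [div_self hp, one_smul]
  · show (P.sg / P.sg) • x.2.2.2 = x.2.2.2
    rw [div_self hp, one_smul]

lemma cnv_dist (P Q : Par) (x y : E) {c : ℝ} (h1 : 1 ≤ c) (h2 : P.sg / Q.sg ≤ c) :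
    dist (cnv P Q x) (cnv P Q y) ≤ c * dist x y := by
  have hp : 0 < P.sg / Q.sg := div_pos P.sg0 Q.sg0
  rw [dist_eq_norm, dist_eq_norm]
  set r := ‖x - y‖ with hr
  have hr0 : 0 ≤ r := norm_nonneg _
  have n1 : ‖x.1 - y.1‖ ≤ r := norm_fst_le (x - y)
  have n2 : ‖x.2.1 - y.2.1‖ ≤ r := (norm_fst_le (x - y).2).trans (norm_snd_le (x - y))
  have n3 : ‖x.2.2.1 - y.2.2.1‖ ≤ r :=
    (norm_fst_le (x - y).2.2).trans ((norm_snd_le (x - y).2).trans (norm_snd_le (x - y)))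
  have n4 : ‖x.2.2.2 - y.2.2.2‖ ≤ r :=
    (norm_snd_le (x - y).2.2).trans ((norm_snd_le (x - y).2).trans (norm_snd_le (x - y)))
  have hc : r ≤ c * r := le_mul_of_one_le_left hr0 h1
  rw [Prod.norm_def, Prod.norm_def, Prod.norm_def]
  refine max_le (n1.trans hc) (max_le (n2.trans hc) (max_le ?_ ?_))
  · show ‖(P.sg / Q.sg) • x.2.2.1 - (P.sg / Q.sg) • y.2.2.1‖ ≤ _
    rw [← smul_sub, norm_smul, Real.norm_of_nonneg hp.le]
    gcongr
  · show ‖(P.sg / Q.sg) • x.2.2.2 - (P.sg / Q.sg) • y.2.2.2‖ ≤ _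
    rw [← smul_sub, norm_smul, Real.norm_of_nonneg hp.le]
    gcongr

lemma cnv_smul (P Q : Par) (u : ℂ) (x : E) : cnv P Q (u • x) = u • cnv P Q x := by
  refine Prod.ext rfl (Prod.ext rfl (Prod.ext ?_ ?_))
  · show (P.sg / Q.sg) • (u * x.2.2.1) = u * ((P.sg / Q.sg) • x.2.2.1)
    simp only [Complex.real_smul]; ring
  · show (P.sg / Q.sg) • (u * x.2.2.2) = u * ((P.sg / Q.sg) • x.2.2.2)
    simp only [Complex.real_smul]; ring

lemma hasDerivAt_cnv (P Q : Par) {y : ℝ → E} {y' : E} {t : ℝ} (h : HasDerivAt y y' t) :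
    HasDerivAt (fun s => cnv P Q (y s)) (cnv P Q y') t := by
  have h1 : HasDerivAt (fun s => (y s).1) y'.1 t := h.fst
  have h2 : HasDerivAt (fun s => (y s).2.1) y'.2.1 t := h.snd.fst
  have h3 : HasDerivAt (fun s => (y s).2.2.1) y'.2.2.1 t := h.snd.snd.fst
  have h4 : HasDerivAt (fun s => (y s).2.2.2) y'.2.2.2 t := h.snd.snd.snd
  exact h1.prodMk (h2.prodMk ((h3.const_smul (P.sg / Q.sg)).prodMk (h4.const_smul (P.sg / Q.sg))))

/-- the softening radii of `P` are at least those of `Q` -/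
structure LeP (Q P : Par) : Prop where
  a : Q.dA ≤ P.dA
  c : Q.dC ≤ P.dC
  b : Q.dB ≤ P.dB

lemma Far.leP {Q P : Par} (h : LeP Q P) {δ : ℝ} {x : E} (hx : Far P δ x) : Far Q δ x :=
  ⟨by linarith [h.a, hx.1], by linarith [h.c, hx.2.1], by linarith [h.b, hx.2.2]⟩

lemma far_cnv {P Q R : Par} {δ : ℝ} {x : E} : Far R δ (cnv P Q x) ↔ Far R δ x := Iff.rfl

/-- a solution for the parameters `P` is a solution for the parameters `Q` -/
theorem glue {P Q : Par} (hPQ : LeP Q P) (hQ : LipOK Q) {m : Fin 3 → ℝ} (hm : NearM (1 / 10 ^ 6) m)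
    {Y y : ℝ → E} {a b : ℝ} (hY : ∀ t ∈ Icc a b, HasDerivAt Y (fld Q m (Y t)) t)
    (hy : ∀ t ∈ Icc a b, HasDerivAt y (fld P m (y t)) t) (hF : ∀ t ∈ Icc a b, Far P 0 (y t))
    (h0 : Y a = cnv P Q (y a)) {t : ℝ} (ht : t ∈ Icc a b) : Y t = cnv P Q (y t) := by
  have hL := fld_lip hQ hm
  refine ODE_solution_unique (v := fun _ => fld Q m) (K := Q.K) (f := Y) (g := fun t => cnv P Q (y t))
    (fun _ => hL) (fun s hs => (hY s hs).continuousAt.continuousWithinAt)
    (fun s hs => (hY s ⟨hs.1, hs.2.le⟩).hasDerivWithinAt)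
    (fun s hs => (hasDerivAt_cnv P Q (hy s hs)).continuousAt.continuousWithinAt)
    (fun s hs => ?_) h0 ht
  have hs' : s ∈ Icc a b := ⟨hs.1, hs.2.le⟩
  have h1 := hasDerivAt_cnv P Q (hy s hs')
  rw [cnv_fld (hF s hs') ((hF s hs').leP hPQ)] at h1
  exact h1.hasDerivWithinAt

lemma far_left {P : Par} {y : ℝ → E} {a b : ℝ} (hab : a < b) (hy : ContinuousAt y a)
    (h : ∀ t, a < t → t ≤ b → Far P 0 (y t)) : Far P 0 (y a) := by
  have hev : ∀ᶠ t in 𝓝[>] a, Far P 0 (y t) := by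
    filter_upwards [Ioc_mem_nhdsGT hab] with t ht
    exact h t ht.1 ht.2
  have ht : Tendsto y (𝓝[>] a) (𝓝 (y a)) := hy.tendsto.mono_left nhdsWithin_le_nhds
  have n1 : Tendsto (fun t => ‖(y t).1‖) (𝓝[>] a) (𝓝 ‖(y a).1‖) :=
    ((continuous_fst.tendsto _).comp ht).norm
  have n2 : Tendsto (fun t => ‖(y t).2.1‖) (𝓝[>] a) (𝓝 ‖(y a).2.1‖) :=
    (((continuous_fst.comp continuous_snd).tendsto _).comp ht).norm
  have n3 : Tendsto (fun t => ‖(y t).1 + (y t).2.1‖) (𝓝[>] a) (𝓝 ‖(y a).1 + (y a).2.1‖) :=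
    (((continuous_fst.add (continuous_fst.comp continuous_snd)).tendsto _).comp ht).norm
  exact ⟨ge_of_tendsto n1 (hev.mono fun t h => h.1), ge_of_tendsto n3 (hev.mono fun t h => h.2.1),
    ge_of_tendsto n2 (hev.mono fun t h => h.2.2)⟩

/-- one phase -/
theorem phase {Q : PH} (hQ : PHok Q) (hle : LeP PG Q.P) {m : Fin 3 → ℝ} (hm : NearM (1 / 10 ^ 40) m)
    {deg n : ℕ} (hn : 0 < n) {s s' : St}
    (hrun : run ((Q.H ^ 2 : ℕ) : ℤ) Q.ca Q.cc Q.cb DG0 DR0 deg n s = some s')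
    {Y : ℝ → E} {t0 e : ℝ} (he0 : 0 ≤ e) (hY : ∀ t, t0 ≤ t → HasDerivAt Y (fld PG m (Y t)) t)
    (he : Q.gr ^ n * (e + cE) ≤ 3 / 10 ^ 4) {y0 : E} (h0 : Y t0 = cnv Q.P PG y0)
    (hd : dist y0 (stE Q s) ≤ e) :
    (∀ t ∈ Icc t0 (t0 + n / Q.H), Far PG 0 (Y t)) ∧ ∃ y1 : E, Y (t0 + n / Q.H) = cnv Q.P PG y1 ∧
      dist y1 (stE Q s') ≤ Q.gr ^ n * (e + cE) := by
  have hm6 : NearM (1 / 10 ^ 6) m := hm.mono (by norm_num)
  obtain ⟨α, hα0, hα⟩ := exists_forward (fld Q.P m) _ (fld_lip hQ.lip hm6) y0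
  set y : ℝ → E := fun t => α (t - t0) with hy
  have hyd : ∀ t, t0 ≤ t → HasDerivAt y (fld Q.P m (y t)) t := by
    intro t ht
    exact (hα (t - t0) (by linarith)).comp_sub_const t t0
  have hy0 : y t0 = y0 := by simp only [hy, sub_self, hα0]
  obtain ⟨k1, k2⟩ := run_sound hQ DG0_le DR0_le hm n s s' hrun y t0 e he0 hyd he (by rw [hy0]; exact hd)
  have hH : (0 : ℝ) < Q.H := by exact_mod_cast hQ.H0
  have hpos : 0 < (n : ℝ) / Q.H := by
    have : (0 : ℝ) < n := by exact_mod_cast hn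
    positivity
  have hfar : ∀ t ∈ Icc t0 (t0 + n / Q.H), Far Q.P 0 (y t) := by
    have hgt : ∀ t, t0 < t → t ≤ t0 + n / Q.H → Far Q.P 0 (y t) := by
      intro t h1 h2
      rcases k1 t h1.le h2 with h3 | h3
      · exact h3
      · exact absurd h3 h1.ne'
    intro t ht
    rcases lt_or_eq_of_le ht.1 with h1 | h1
    · exact hgt t h1 ht.2
    · rw [← h1]
      exact far_left (b := t0 + n / Q.H) (by linarith) (hyd t0 le_rfl).continuousAt hgt
  have hg : ∀ t ∈ Icc t0 (t0 + n / Q.H), Y t = cnv Q.P PG (y t) := fun t ht =>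
    glue hle lipG hm6 (fun t ht => hY t ht.1) (fun t ht => hyd t ht.1) hfar (by rw [hy0]; exact h0) ht
  refine ⟨fun t ht => ?_, y (t0 + n / Q.H), hg _ ⟨by linarith, le_rfl⟩, k2⟩
  rw [hg t ht, far_cnv]
  exact (hfar t ht).leP hle

lemma le0 : LeP PG P0 := ⟨by norm_num [PG, P0], by norm_num [PG, P0], by norm_num [PG, P0]⟩
lemma le1 : LeP PG P1 := ⟨by norm_num [PG, P1], by norm_num [PG, P1], by norm_num [PG, P1]⟩
lemma le2 : LeP PG P2 := ⟨by norm_num [PG, P2], by norm_num [PG, P2], by norm_num [PG, P2]⟩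
lemma le3 : LeP PG P3 := ⟨by norm_num [PG, P3], by norm_num [PG, P3], by norm_num [PG, P3]⟩
lemma le4 : LeP PG P4 := ⟨by norm_num [PG, P4], by norm_num [PG, P4], by norm_num [PG, P4]⟩
lemma le5 : LeP PG P5 := ⟨by norm_num [PG, P5], by norm_num [PG, P5], by norm_num [PG, P5]⟩
lemma le6 : LeP PG P6 := ⟨by norm_num [PG, P6], by norm_num [PG, P6], by norm_num [PG, P6]⟩
lemma le7 : LeP PG P7 := ⟨by norm_num [PG, P7], by norm_num [PG, P7], by norm_num [PG, P7]⟩
lemma le8 : LeP PG P8 := ⟨by norm_num [PG, P8], by norm_num [PG, P8], by norm_num [PG, P8]⟩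
lemma le9 : LeP PG P9 := ⟨by norm_num [PG, P9], by norm_num [PG, P9], by norm_num [PG, P9]⟩
lemma le10 : LeP PG P10 := ⟨by norm_num [PG, P10], by norm_num [PG, P10], by norm_num [PG, P10]⟩
lemma le11 : LeP PG P11 := ⟨by norm_num [PG, P11], by norm_num [PG, P11], by norm_num [PG, P11]⟩
lemma le12 : LeP PG P12 := ⟨by norm_num [PG, P12], by norm_num [PG, P12], by norm_num [PG, P12]⟩
lemma le13 : LeP PG P13 := ⟨by norm_num [PG, P13], by norm_num [PG, P13], by norm_num [PG, P13]⟩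
lemma le14 : LeP PG P14 := ⟨by norm_num [PG, P14], by norm_num [PG, P14], by norm_num [PG, P14]⟩

lemma rdiv_err {x k : ℤ} (hk : 0 < k) : |k * rdiv x k - x| ≤ k := by
  have e : rdiv x k = (2 * x + k) / (2 * k) := rfl
  have h1 := Int.mul_ediv_add_emod (2 * x + k) (2 * k)
  have h2 := Int.emod_nonneg (2 * x + k) (show (2 * k) ≠ 0 by omega)
  have h3 := Int.emod_lt_of_pos (2 * x + k) (show 0 < 2 * k by omega)
  rw [e, abs_le]
  constructor <;> nlinarith

/-- the change of the unit of time -/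
lemma trans_gen (A B : PH) (hk : 0 < B.H) (hk2 : B.H ≤ 512) (hs : 3 ≤ B.P.sg) {w u : St}
    (h : cvt A.H B.H w = u) : dist (cnv A.P B.P (stE A w)) (stE B u) ≤ 1 / 10 ^ 44 := by
  have hS := SR_pos
  subst h
  have key : ∀ x y : ℤ, ‖(A.P.sg / B.P.sg : ℝ) • ((A.H / A.P.sg : ℝ) • (⟨x / SR, y / SR⟩ : ℂ)) -
      (B.H / B.P.sg : ℝ) • (⟨(rdiv (x * A.H) B.H : ℤ) / SR, (rdiv (y * A.H) B.H : ℤ) / SR⟩ : ℂ)‖ ≤
        1 / 10 ^ 44 := by
    intro x y
    set c := rdiv (x * A.H) B.H with hc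
    set d := rdiv (y * A.H) B.H with hd
    have h1 : |(B.H * c - A.H * x : ℝ)| ≤ 512 := by
      have h := rdiv_err (x := x * A.H) (k := B.H) (by exact_mod_cast hk)
      rw [← hc] at h
      have h' : |((B.H : ℤ) * c - x * A.H : ℤ)| ≤ 512 := h.trans (by exact_mod_cast hk2)
      have h'' : ((|((B.H : ℤ) * c - x * A.H : ℤ)| : ℤ) : ℝ) ≤ ((512 : ℤ) : ℝ) := by exact_mod_cast h'
      push_cast at h''
      rwa [mul_comm (x : ℝ)] at h''
    have h2 : |(B.H * d - A.H * y : ℝ)| ≤ 512 := by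
      have h := rdiv_err (x := y * A.H) (k := B.H) (by exact_mod_cast hk)
      rw [← hd] at h
      have h' : |((B.H : ℤ) * d - y * A.H : ℤ)| ≤ 512 := h.trans (by exact_mod_cast hk2)
      have h'' : ((|((B.H : ℤ) * d - y * A.H : ℤ)| : ℤ) : ℝ) ≤ ((512 : ℤ) : ℝ) := by exact_mod_cast h'
      push_cast at h''
      rwa [mul_comm (y : ℝ)] at h''
    have e : (A.P.sg / B.P.sg : ℝ) • ((A.H / A.P.sg : ℝ) • (⟨x / SR, y / SR⟩ : ℂ)) -
        (B.H / B.P.sg : ℝ) • (⟨c / SR, d / SR⟩ : ℂ) =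
        (⟨-((B.H * c - A.H * x) / (B.P.sg * SR)), -((B.H * d - A.H * y) / (B.P.sg * SR))⟩ : ℂ) := by
      have p1 := A.P.sg0.ne'
      have p2 := B.P.sg0.ne'
      have p3 := hS.ne'
      apply Complex.ext
      · simp only [Complex.sub_re, Complex.smul_re, smul_eq_mul]; field_simp; ring
      · simp only [Complex.sub_im, Complex.smul_im, smul_eq_mul]; field_simp; ring
    have hp : 0 < B.P.sg * SR := mul_pos B.P.sg0 hS
    have hb : ∀ {x : ℝ}, |x| ≤ 512 → |-(x / (B.P.sg * SR))| ≤ 1 / (2 * 10 ^ 44) := by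
      intro x hx
      rw [abs_neg, abs_div, abs_of_pos hp, div_le_div_iff₀ hp (by norm_num)]
      have h0 : 3 * SR ≤ B.P.sg * SR := mul_le_mul_of_nonneg_right hs hS.le
      have : (1 : ℝ) * (B.P.sg * SR) ≥ 512 * (2 * 10 ^ 44) := by
        refine le_trans ?_ (le_of_le_of_eq h0 (one_mul _).symm)
        rw [SR]; norm_num
      nlinarith
    rw [e]
    refine (norm_mk_le (hb h1) (hb h2)).trans ?_
    norm_num
  rw [dist_eq_norm, Prod.norm_def, Prod.norm_def, Prod.norm_def]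
  refine max_le ?_ (max_le ?_ (max_le ?_ ?_))
  · have f1 : (cnv A.P B.P (stE A w)).1 = (stE B (cvt A.H B.H w)).1 := rfl
    rw [Prod.fst_sub, f1, sub_self, norm_zero]; norm_num
  · have f2 : (cnv A.P B.P (stE A w)).2.1 = (stE B (cvt A.H B.H w)).2.1 := rfl
    rw [Prod.snd_sub, Prod.fst_sub, f2, sub_self, norm_zero]; norm_num
  · exact key w.ax1 w.ay1
  · exact key w.bx1 w.bt1

/-- the transition between two phases -/
lemma trans_step (A B : PH) (hk : 0 < B.H) (hk2 : B.H ≤ 512) (hs : 3 ≤ B.P.sg) {w u : St}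
    (h : cvt A.H B.H w = u) {c e e' : ℝ} (h1 : 1 ≤ c) (h2 : A.P.sg / B.P.sg ≤ c)
    (he : c * e + 1 / 10 ^ 44 ≤ e') {y : E} (hy : dist y (stE A w) ≤ e) :
    dist (cnv A.P B.P y) (stE B u) ≤ e' := by
  have h3 := dist_triangle (cnv A.P B.P y) (cnv A.P B.P (stE A w)) (stE B u)
  have h4 := cnv_dist A.P B.P y (stE A w) h1 h2
  have h5 := trans_gen A B hk hk2 hs h
  have h6 : c * dist y (stE A w) ≤ c * e := mul_le_mul_of_nonneg_left hy (by linarith)
  linarith

end Pool.Agent.T9h50.TM
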