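import Pool.Agent.T9h50.TM.Phd

/-!
# The solutions near the first state escape
-/

set_option autoImplicit false
set_option exponentiation.threshold 3000

open scoped NNReal ComplexConjugate Topology
open Complex Set Filter

namespace Pool.Agent.T9h50.TM

open Pool.Agent.T9h50.TB (E kd kd_eq ip dtm ip_self exists_forward RR Hb)

/-- the states near the final state lead to escape -/
theorem escC_of_near {m : Fin 3 → ℝ} (hm : NearM (1 / 10 ^ 6) m) {y : E}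
    (hy : dist y (stE Q14 w14) ≤ 5 / 10 ^ 5) : EscC PG m (cnv P14 PG y) := by
  obtain ⟨⟨m0, m0'⟩, ⟨m1, m1'⟩, ⟨m2, m2'⟩⟩ := hm.bounds
  norm_num at m0 m0' m1 m1' m2 m2'
  rw [dist_eq_norm] at hy
  set S := stE Q14 w14 with hS
  have n1 : ‖y.1 - S.1‖ ≤ 5 / 10 ^ 5 := (norm_fst_le (y - S)).trans hy
  have n2 : ‖y.2.1 - S.2.1‖ ≤ 5 / 10 ^ 5 := ((norm_fst_le (y - S).2).trans (norm_snd_le (y - S))).trans hy
  have n3 : ‖y.2.2.1 - S.2.2.1‖ ≤ 5 / 10 ^ 5 := (norm_fst_le (y - S).2.2).trans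
      ((norm_snd_le (y - S).2).trans ((norm_snd_le (y - S)).trans hy))
  have n4 : ‖y.2.2.2 - S.2.2.2‖ ≤ 5 / 10 ^ 5 := (norm_snd_le (y - S).2.2).trans
      ((norm_snd_le (y - S).2).trans ((norm_snd_le (y - S)).trans hy))
  have c1 := (abs_le.1 ((Complex.abs_re_le_norm _).trans n1))
  have c2 := (abs_le.1 ((Complex.abs_im_le_norm _).trans n1))
  have c3 := (abs_le.1 ((Complex.abs_re_le_norm _).trans n2))
  have c4 := (abs_le.1 ((Complex.abs_im_le_norm _).trans n2))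
  have c5 := (abs_le.1 ((Complex.abs_re_le_norm _).trans n3))
  have c6 := (abs_le.1 ((Complex.abs_im_le_norm _).trans n3))
  have c7 := (abs_le.1 ((Complex.abs_re_le_norm _).trans n4))
  have c8 := (abs_le.1 ((Complex.abs_im_le_norm _).trans n4))
  have e1 : S.1 = ⟨w14.ax0 / SR, w14.ay0 / SR⟩ := rfl
  have e2 : S.2.1 = ⟨w14.bx0 / SR, w14.bt0 / SR⟩ := rfl
  have e3 : S.2.2.1 = (128 / (11804 / 1000) : ℝ) • (⟨w14.ax1 / SR, w14.ay1 / SR⟩ : ℂ) := by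
    show ((128 : ℕ) / (11804 / 1000) : ℝ) • _ = _
    push_cast; rfl
  have e4 : S.2.2.2 = (128 / (11804 / 1000) : ℝ) • (⟨w14.bx1 / SR, w14.bt1 / SR⟩ : ℂ) := by
    show ((128 : ℕ) / (11804 / 1000) : ℝ) • _ = _
    push_cast; rfl
  rw [Complex.sub_re, e1] at c1
  rw [Complex.sub_im, e1] at c2
  rw [Complex.sub_re, e2] at c3
  rw [Complex.sub_im, e2] at c4
  rw [Complex.sub_re, e3, Complex.smul_re] at c5
  rw [Complex.sub_im, e3, Complex.smul_im] at c6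
  rw [Complex.sub_re, e4, Complex.smul_re] at c7
  rw [Complex.sub_im, e4, Complex.smul_im] at c8
  have f1 : (w14.ax0 : ℝ) = -886553005856178075890712426632081692140137868513 := by norm_num [w14]
  have f2 : (w14.ax1 : ℝ) = -4575209750027610578451059615238941469073064620 := by norm_num [w14]
  have f3 : (w14.ay0 : ℝ) = -2569545814902444596630794106125954736411912123997 := by norm_num [w14]
  have f4 : (w14.ay1 : ℝ) = -13610865373459827425852829323600633147522340037 := by norm_num [w14]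
  have f5 : (w14.bx0 : ℝ) = -483967477291046656143340799880487035223682985034 := by norm_num [w14]
  have f6 : (w14.bx1 : ℝ) = 17626583120873248313976177459661227890714488848 := by norm_num [w14]
  have f7 : (w14.bt0 : ℝ) = -39998900798235293787224088530697482196724639456 := by norm_num [w14]
  have f8 : (w14.bt1 : ℝ) = -17785269728341725585469001416043956141490045969 := by norm_num [w14]
  simp only [f1, f2, f3, f4, f5, f6, f7, f8, smul_eq_mul, SR] at c1 c2 c3 c4 c5 c6 c7 c8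
  clear_value S
  set a := y.1 with ha
  set b := y.2.1 with hb
  set p := PG.sg • (cnv P14 PG y).2.2.1 with hp
  set q := PG.sg • (cnv P14 PG y).2.2.2 with hq
  have g0 : PG.sg * (P14.sg / PG.sg) = 11804 / 1000 := by simp only [PG, P14]; norm_num
  have g1 : p.re = 11804 / 1000 * y.2.2.1.re := by
    rw [hp]
    show (PG.sg • ((P14.sg / PG.sg) • y.2.2.1)).re = _
    rw [smul_smul, g0, Complex.smul_re, smul_eq_mul]
  have g2 : p.im = 11804 / 1000 * y.2.2.1.im := by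
    rw [hp]
    show (PG.sg • ((P14.sg / PG.sg) • y.2.2.1)).im = _
    rw [smul_smul, g0, Complex.smul_im, smul_eq_mul]
  have g3 : q.re = 11804 / 1000 * y.2.2.2.re := by
    rw [hq]
    show (PG.sg • ((P14.sg / PG.sg) • y.2.2.2)).re = _
    rw [smul_smul, g0, Complex.smul_re, smul_eq_mul]
  have g4 : q.im = 11804 / 1000 * y.2.2.2.im := by
    rw [hq]
    show (PG.sg • ((P14.sg / PG.sg) • y.2.2.2)).im = _
    rw [smul_smul, g0, Complex.smul_im, smul_eq_mul]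
  have k1 : a.re ≤ -(606553 / 10 ^ 6) ∧ -(606656 / 10 ^ 6) ≤ a.re := by
    norm_num at c1 ⊢; constructor <;> linarith [c1.1, c1.2]
  have k2 : a.im ≤ -(1758103 / 10 ^ 6) ∧ -(1758206 / 10 ^ 6) ≤ a.im := by
    norm_num at c2 ⊢; constructor <;> linarith [c2.1, c2.2]
  have k3 : b.re ≤ -(331092 / 10 ^ 6) ∧ -(331195 / 10 ^ 6) ≤ b.re := by
    norm_num at c3 ⊢; constructor <;> linarith [c3.1, c3.2]
  have k4 : b.im ≤ -(27317 / 10 ^ 6) ∧ -(27420 / 10 ^ 6) ≤ b.im := by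
    norm_num at c4 ⊢; constructor <;> linarith [c4.1, c4.2]
  have k5 : p.re ≤ -(400110 / 10 ^ 6) ∧ -(401294 / 10 ^ 6) ≤ p.re := by
    rw [g1]; norm_num at c5 ⊢; constructor <;> linarith [c5.1, c5.2]
  have k6 : p.im ≤ -(1191464 / 10 ^ 6) ∧ -(1192647 / 10 ^ 6) ≤ p.im := by
    rw [g2]; norm_num at c6 ⊢; constructor <;> linarith [c6.1, c6.2]
  have k7 : q.re ≤ 1544348 / 10 ^ 6 ∧ 1543165 / 10 ^ 6 ≤ q.re := by
    rw [g3]; norm_num at c7 ⊢; constructor <;> linarith [c7.1, c7.2]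
  have k8 : q.im ≤ -(1557063 / 10 ^ 6) ∧ -(1558246 / 10 ^ 6) ≤ q.im := by
    rw [g4]; norm_num at c8 ⊢; constructor <;> linarith [c8.1, c8.2]
  clear c1 c2 c3 c4 c5 c6 c7 c8
  have hM : 0 < m 1 + m 2 := by linarith
  have μ1 : 499995 / 10 ^ 6 ≤ m 2 / (m 1 + m 2) := by
    rw [le_div_iff₀ hM]; norm_num; linarith
  have μ2 : m 2 / (m 1 + m 2) ≤ 500005 / 10 ^ 6 := by
    rw [div_le_iff₀ hM]; norm_num; linarith
  have hq2 : ‖q‖ ^ 2 = q.re * q.re + q.im * q.im := by rw [← ip_self, ip]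
  have hb2 : ‖b‖ ^ 2 = b.re * b.re + b.im * b.im := by rw [← ip_self, ip]
  have sq1 : q.re * q.re ≤ (1544348 / 10 ^ 6) ^ 2 := by
    have : q.re * q.re ≤ (1544348 / 10 ^ 6) * (1544348 / 10 ^ 6) :=
      mul_le_mul k7.1 k7.1 (by norm_num at k7 ⊢; linarith [k7.2]) (by norm_num)
    linarith
  have sq2 : q.im * q.im ≤ (1558246 / 10 ^ 6) ^ 2 := by
    have : (-q.im) * (-q.im) ≤ (1558246 / 10 ^ 6) * (1558246 / 10 ^ 6) :=
      mul_le_mul (by linarith [k8.2]) (by linarith [k8.2]) (by norm_num at k8 ⊢; linarith [k8.1]) (by norm_num)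
    linarith
  have sb1 : b.re * b.re ≤ (331195 / 10 ^ 6) ^ 2 := by
    have : (-b.re) * (-b.re) ≤ (331195 / 10 ^ 6) * (331195 / 10 ^ 6) :=
      mul_le_mul (by linarith [k3.2]) (by linarith [k3.2]) (by norm_num at k3 ⊢; linarith [k3.1]) (by norm_num)
    linarith
  have sb2 : b.im * b.im ≤ (27420 / 10 ^ 6) ^ 2 := by
    have : (-b.im) * (-b.im) ≤ (27420 / 10 ^ 6) * (27420 / 10 ^ 6) :=
      mul_le_mul (by linarith [k4.2]) (by linarith [k4.2]) (by norm_num at k4 ⊢; linarith [k4.1]) (by norm_num)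
    linarith
  have sb3 : (331092 / 10 ^ 6) ^ 2 ≤ b.re * b.re := by
    have : (331092 / 10 ^ 6) * (331092 / 10 ^ 6) ≤ (-b.re) * (-b.re) :=
      mul_le_mul (by linarith [k3.1]) (by linarith [k3.1]) (by norm_num) (by norm_num at k3 ⊢; linarith [k3.1])
    linarith
  have hle : ∀ {x y : ℝ}, x ^ 2 ≤ y ^ 2 → 0 ≤ y → x ≤ y := fun h hb => (abs_le_of_sq_le_sq' h hb).2
  have nb1 : ‖b‖ ≤ 33234 / 10 ^ 5 := by
    have : ‖b‖ ^ 2 ≤ (33234 / 10 ^ 5) ^ 2 := by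
      rw [hb2]; norm_num at sb1 sb2 ⊢; linarith
    exact hle this (by norm_num)
  have nb2 : 330 / 1000 ≤ ‖b‖ := by
    have : (330 / 1000) ^ 2 ≤ ‖b‖ ^ 2 := by
      rw [hb2]; norm_num at sb3 ⊢; nlinarith [mul_self_nonneg b.im]
    exact hle this (norm_nonneg _)
  have nq1 : ‖q‖ ≤ 2195 / 1000 := by
    have : ‖q‖ ^ 2 ≤ (2195 / 1000) ^ 2 := by
      rw [hq2]; norm_num at sq1 sq2 ⊢; linarith
    exact hle this (by norm_num)
  have nb0 : 0 < ‖b‖ := by linarith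
  refine ⟨?_, ?_, ?_, ?_, ?_, ?_, ?_⟩
  · change 1889 / 1000 ≤ cmp (RR m a b)
    rw [RR, cmp_add, cmp_smul]
    have h1 : 9232 / 10 ^ 5 ≤ cmp b := by
      rw [cmp]; norm_num at k3 k4 ⊢; linarith [k3.1, k4.1]
    have h2 : 499995 / 10 ^ 6 * (9232 / 10 ^ 5) ≤ m 2 / (m 1 + m 2) * cmp b :=
      mul_le_mul μ1 h1 (by norm_num) (by norm_num at μ1 ⊢; linarith)
    have h3 : cmp a = -(20 / 101) * a.re - 99 / 101 * a.im := rfl
    rw [h3]
    norm_num at h2 k1 k2 ⊢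
    linarith [k1.1, k2.1]
  · change 1857 / 1000 ≤ cmp (RR m p q)
    rw [RR, cmp_add, cmp_smul (m 2 / (m 1 + m 2)) q]
    have h1 : 122040 / 10 ^ 5 ≤ cmp q := by
      rw [cmp]; norm_num at k7 k8 ⊢; linarith [k7.1, k8.1]
    have h2 : 499995 / 10 ^ 6 * (122040 / 10 ^ 5) ≤ m 2 / (m 1 + m 2) * cmp q :=
      mul_le_mul μ1 h1 (by norm_num) (by norm_num at μ1 ⊢; linarith)
    have h3 : cmp p = -(20 / 101) * p.re - 99 / 101 * p.im := rfl
    rw [h3]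
    norm_num at h2 k5 k6 ⊢
    linarith [k5.1, k6.1]
  · change Hb m b q ≤ -(361 / 100)
    rw [Hb, hq2]
    have h1 : 10 ^ 5 / 33234 ≤ 1 / ‖b‖ := by
      rw [div_le_div_iff₀ (by norm_num) nb0]; linarith
    have h2 : 199999 / 10 ^ 5 * (10 ^ 5 / 33234) ≤ (m 1 + m 2) * (1 / ‖b‖) :=
      mul_le_mul (by norm_num; linarith) h1 (by norm_num) (by linarith)
    norm_num at h2 sq1 sq2 ⊢
    linarith
  · change 557 / 1000 ≤ dtm b q
    rw [dtm]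
    have h1 : 331092 / 10 ^ 6 * (1557063 / 10 ^ 6) ≤ (-b.re) * (-q.im) :=
      mul_le_mul (by linarith [k3.1]) (by linarith [k8.1]) (by norm_num) (by norm_num at k3 ⊢; linarith [k3.1])
    have h2 : 27317 / 10 ^ 6 * (1543165 / 10 ^ 6) ≤ (-b.im) * q.re :=
      mul_le_mul (by linarith [k4.1]) k7.2 (by norm_num) (by norm_num at k4 ⊢; linarith [k4.1])
    norm_num at h1 h2 ⊢
    linarith
  · change 1 / 100 < ‖b‖
    norm_num at nb2 ⊢; linarith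
  · change ‖b‖ < 7 / 10
    norm_num at nb1 ⊢; linarith
  · change ‖q‖ * ‖b‖ < 83 / 100
    have : ‖q‖ * ‖b‖ ≤ 2195 / 1000 * (33234 / 10 ^ 5) := mul_le_mul nq1 nb1 nb0.le (by norm_num)
    norm_num at this ⊢; linarith

/-- every solution which starts near the first state escapes -/
theorem phases {m : Fin 3 → ℝ} (hm : NearM (1 / 10 ^ 40) m) {Y : ℝ → E}
    (hY : ∀ t, 0 ≤ t → HasDerivAt Y (fld PG m (Y t)) t) {y0 : E} (h0 : Y 0 = cnv P0 PG y0)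
    (hd : dist y0 (stE Q0 u0) ≤ 1 / 10 ^ 35) {t : ℝ} (ht : 0 ≤ t) :
    Far PG 0 (Y t) ∧ (87 / 8 ≤ t → 3 / 2 + 35 / 100 * (t - 87 / 8) ≤ ‖(Y t).1‖) := by
  have hm6 : NearM (1 / 10 ^ 6) m := hm.mono (by norm_num)
  have p_0 : (1512859 / 10 ^ 6 : ℝ) ^ 27 * (1 / 10 ^ 35 + cE) ≤ 2507 / 10 ^ 33 := by
    unfold cE; norm_num
  obtain ⟨a_0, y_0, b_0, c_0⟩ := phase ok0 le0 hm (n := 27) (by norm_num) runs0 (t0 := 0)
    (e := 1 / 10 ^ 35) (by norm_num) (fun t ht => hY t (by linarith)) (p_0.trans (by norm_num))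
    (y0 := y0) h0 hd
  have t_0 : (0 : ℝ) + (27 : ℕ) / Q0.H = 27 / 8 := by
    show (0 : ℝ) + (27 : ℕ) / (8 : ℕ) = 27 / 8
    norm_num
  rw [t_0] at a_0 b_0
  replace c_0 : dist y_0 (stE Q0 w0) ≤ 2507 / 10 ^ 33 := c_0.trans p_0
  have d_1 : dist (cnv P0 P1 y_0) (stE Q1 u1) ≤ 2508 / 10 ^ 33 :=
    trans_step Q0 Q1 (by norm_num [Q1]) (by norm_num [Q1]) (by norm_num [Q1, P1]) cv0
      (c := 1) (by norm_num) (by norm_num [Q0, Q1, P0, P1]) (by norm_num) c_0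
  have p_1 : (1295717 / 10 ^ 6 : ℝ) ^ 20 * (2508 / 10 ^ 33 + cE) ≤ 4467 / 10 ^ 31 := by
    unfold cE; norm_num
  obtain ⟨a_1, y_1, b_1, c_1⟩ := phase ok1 le1 hm (n := 20) (by norm_num) runs1 (t0 := 27 / 8)
    (e := 2508 / 10 ^ 33) (by norm_num) (fun t ht => hY t (by linarith)) (p_1.trans (by norm_num))
    (y0 := (cnv P0 P1 y_0)) (b_0.trans (cnv_cnv P0 P1 PG y_0).symm) d_1
  have t_1 : (27 / 8 : ℝ) + (20 : ℕ) / Q1.H = 37 / 8 := by
    show (27 / 8 : ℝ) + (20 : ℕ) / (16 : ℕ) = 37 / 8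
    norm_num
  rw [t_1] at a_1 b_1
  replace c_1 : dist y_1 (stE Q1 w1) ≤ 4467 / 10 ^ 31 := c_1.trans p_1
  have d_2 : dist (cnv P1 P2 y_1) (stE Q2 u2) ≤ 4468 / 10 ^ 31 :=
    trans_step Q1 Q2 (by norm_num [Q2]) (by norm_num [Q2]) (by norm_num [Q2, P2]) cv1
      (c := 1) (by norm_num) (by norm_num [Q1, Q2, P1, P2]) (by norm_num) c_1
  have p_2 : (1118497 / 10 ^ 6 : ℝ) ^ 60 * (4468 / 10 ^ 31 + cE) ≤ 3704 / 10 ^ 28 := by
    unfold cE; norm_num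
  obtain ⟨a_2, y_2, b_2, c_2⟩ := phase ok2 le2 hm (n := 60) (by norm_num) runs2 (t0 := 37 / 8)
    (e := 4468 / 10 ^ 31) (by norm_num) (fun t ht => hY t (by linarith)) (p_2.trans (by norm_num))
    (y0 := (cnv P1 P2 y_1)) (b_1.trans (cnv_cnv P1 P2 PG y_1).symm) d_2
  have t_2 : (37 / 8 : ℝ) + (60 : ℕ) / Q2.H = 89 / 16 := by
    show (37 / 8 : ℝ) + (60 : ℕ) / (64 : ℕ) = 89 / 16
    norm_num
  rw [t_2] at a_2 b_2
  replace c_2 : dist y_2 (stE Q2 w2) ≤ 3704 / 10 ^ 28 := c_2.trans p_2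
  have d_3 : dist (cnv P2 P3 y_2) (stE Q3 u3) ≤ 5884 / 10 ^ 28 :=
    trans_step Q2 Q3 (by norm_num [Q3]) (by norm_num [Q3]) (by norm_num [Q3, P3]) cv2
      (c := 15885 / 10 ^ 4) (by norm_num) (by norm_num [Q2, Q3, P2, P3]) (by norm_num) c_2
  have p_3 : (1151427 / 10 ^ 6 : ℝ) ^ 24 * (5884 / 10 ^ 28 + cE) ≤ 1737 / 10 ^ 26 := by
    unfold cE; norm_num
  obtain ⟨a_3, y_3, b_3, c_3⟩ := phase ok3 le3 hm (n := 24) (by norm_num) runs3 (t0 := 89 / 16)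
    (e := 5884 / 10 ^ 28) (by norm_num) (fun t ht => hY t (by linarith)) (p_3.trans (by norm_num))
    (y0 := (cnv P2 P3 y_2)) (b_2.trans (cnv_cnv P2 P3 PG y_2).symm) d_3
  have t_3 : (89 / 16 : ℝ) + (24 : ℕ) / Q3.H = 101 / 16 := by
    show (89 / 16 : ℝ) + (24 : ℕ) / (32 : ℕ) = 101 / 16
    norm_num
  rw [t_3] at a_3 b_3
  replace c_3 : dist y_3 (stE Q3 w3) ≤ 1737 / 10 ^ 26 := c_3.trans p_3
  have d_4 : dist (cnv P3 P4 y_3) (stE Q4 u4) ≤ 1738 / 10 ^ 26 :=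
    trans_step Q3 Q4 (by norm_num [Q4]) (by norm_num [Q4]) (by norm_num [Q4, P4]) cv3
      (c := 1) (by norm_num) (by norm_num [Q3, Q4, P3, P4]) (by norm_num) c_3
  have p_4 : (1107472 / 10 ^ 6 : ℝ) ^ 20 * (1738 / 10 ^ 26 + cE) ≤ 1341 / 10 ^ 25 := by
    unfold cE; norm_num
  obtain ⟨a_4, y_4, b_4, c_4⟩ := phase ok4 le4 hm (n := 20) (by norm_num) runs4 (t0 := 101 / 16)
    (e := 1738 / 10 ^ 26) (by norm_num) (fun t ht => hY t (by linarith)) (p_4.trans (by norm_num))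
    (y0 := (cnv P3 P4 y_3)) (b_3.trans (cnv_cnv P3 P4 PG y_3).symm) d_4
  have t_4 : (101 / 16 : ℝ) + (20 : ℕ) / Q4.H = 53 / 8 := by
    show (101 / 16 : ℝ) + (20 : ℕ) / (64 : ℕ) = 53 / 8
    norm_num
  rw [t_4] at a_4 b_4
  replace c_4 : dist y_4 (stE Q4 w4) ≤ 1341 / 10 ^ 25 := c_4.trans p_4
  have d_5 : dist (cnv P4 P5 y_4) (stE Q5 u5) ≤ 1342 / 10 ^ 25 :=
    trans_step Q4 Q5 (by norm_num [Q5]) (by norm_num [Q5]) (by norm_num [Q5, P5]) cv4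
      (c := 1) (by norm_num) (by norm_num [Q4, Q5, P4, P5]) (by norm_num) c_4
  have p_5 : (1103465 / 10 ^ 6 : ℝ) ^ 56 * (1342 / 10 ^ 25 + cE) ≤ 3332 / 10 ^ 23 := by
    unfold cE; norm_num
  obtain ⟨a_5, y_5, b_5, c_5⟩ := phase ok5 le5 hm (n := 56) (by norm_num) runs5 (t0 := 53 / 8)
    (e := 1342 / 10 ^ 25) (by norm_num) (fun t ht => hY t (by linarith)) (p_5.trans (by norm_num))
    (y0 := (cnv P4 P5 y_4)) (b_4.trans (cnv_cnv P4 P5 PG y_4).symm) d_5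
  have t_5 : (53 / 8 : ℝ) + (56 : ℕ) / Q5.H = 113 / 16 := by
    show (53 / 8 : ℝ) + (56 : ℕ) / (128 : ℕ) = 113 / 16
    norm_num
  rw [t_5] at a_5 b_5
  replace c_5 : dist y_5 (stE Q5 w5) ≤ 3332 / 10 ^ 23 := c_5.trans p_5
  have d_6 : dist (cnv P5 P6 y_5) (stE Q6 u6) ≤ 6906 / 10 ^ 23 :=
    trans_step Q5 Q6 (by norm_num [Q6]) (by norm_num [Q6]) (by norm_num [Q6, P6]) cv5
      (c := 20724 / 10 ^ 4) (by norm_num) (by norm_num [Q5, Q6, P5, P6]) (by norm_num) c_5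
  have p_6 : (1099678 / 10 ^ 6 : ℝ) ^ 24 * (6906 / 10 ^ 23 + cE) ≤ 6762 / 10 ^ 22 := by
    unfold cE; norm_num
  obtain ⟨a_6, y_6, b_6, c_6⟩ := phase ok6 le6 hm (n := 24) (by norm_num) runs6 (t0 := 113 / 16)
    (e := 6906 / 10 ^ 23) (by norm_num) (fun t ht => hY t (by linarith)) (p_6.trans (by norm_num))
    (y0 := (cnv P5 P6 y_5)) (b_5.trans (cnv_cnv P5 P6 PG y_5).symm) d_6
  have t_6 : (113 / 16 : ℝ) + (24 : ℕ) / Q6.H = 119 / 16 := by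
    show (113 / 16 : ℝ) + (24 : ℕ) / (64 : ℕ) = 119 / 16
    norm_num
  rw [t_6] at a_6 b_6
  replace c_6 : dist y_6 (stE Q6 w6) ≤ 6762 / 10 ^ 22 := c_6.trans p_6
  have d_7 : dist (cnv P6 P7 y_6) (stE Q7 u7) ≤ 1223 / 10 ^ 21 :=
    trans_step Q6 Q7 (by norm_num [Q7]) (by norm_num [Q7]) (by norm_num [Q7, P7]) cv6
      (c := 18077 / 10 ^ 4) (by norm_num) (by norm_num [Q6, Q7, P6, P7]) (by norm_num) c_6
  have p_7 : (1233989 / 10 ^ 6 : ℝ) ^ 23 * (1223 / 10 ^ 21 + cE) ≤ 1542 / 10 ^ 19 := by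
    unfold cE; norm_num
  obtain ⟨a_7, y_7, b_7, c_7⟩ := phase ok7 le7 hm (n := 23) (by norm_num) runs7 (t0 := 119 / 16)
    (e := 1223 / 10 ^ 21) (by norm_num) (fun t ht => hY t (by linarith)) (p_7.trans (by norm_num))
    (y0 := (cnv P6 P7 y_6)) (b_6.trans (cnv_cnv P6 P7 PG y_6).symm) d_7
  have t_7 : (119 / 16 : ℝ) + (23 : ℕ) / Q7.H = 71 / 8 := by
    show (119 / 16 : ℝ) + (23 : ℕ) / (16 : ℕ) = 71 / 8
    norm_num
  rw [t_7] at a_7 b_7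
  replace c_7 : dist y_7 (stE Q7 w7) ≤ 1542 / 10 ^ 19 := c_7.trans p_7
  have d_8 : dist (cnv P7 P8 y_7) (stE Q8 u8) ≤ 1543 / 10 ^ 19 :=
    trans_step Q7 Q8 (by norm_num [Q8]) (by norm_num [Q8]) (by norm_num [Q8, P8]) cv7
      (c := 1) (by norm_num) (by norm_num [Q7, Q8, P7, P8]) (by norm_num) c_7
  have p_8 : (1177223 / 10 ^ 6 : ℝ) ^ 25 * (1543 / 10 ^ 19 + cE) ≤ 9126 / 10 ^ 18 := by
    unfold cE; norm_num
  obtain ⟨a_8, y_8, b_8, c_8⟩ := phase ok8 le8 hm (n := 25) (by norm_num) runs8 (t0 := 71 / 8)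
    (e := 1543 / 10 ^ 19) (by norm_num) (fun t ht => hY t (by linarith)) (p_8.trans (by norm_num))
    (y0 := (cnv P7 P8 y_7)) (b_7.trans (cnv_cnv P7 P8 PG y_7).symm) d_8
  have t_8 : (71 / 8 : ℝ) + (25 : ℕ) / Q8.H = 309 / 32 := by
    show (71 / 8 : ℝ) + (25 : ℕ) / (32 : ℕ) = 309 / 32
    norm_num
  rw [t_8] at a_8 b_8
  replace c_8 : dist y_8 (stE Q8 w8) ≤ 9126 / 10 ^ 18 := c_8.trans p_8
  have d_9 : dist (cnv P8 P9 y_8) (stE Q9 u9) ≤ 9127 / 10 ^ 18 :=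
    trans_step Q8 Q9 (by norm_num [Q9]) (by norm_num [Q9]) (by norm_num [Q9, P9]) cv8
      (c := 1) (by norm_num) (by norm_num [Q8, Q9, P8, P9]) (by norm_num) c_8
  have p_9 : (1162999 / 10 ^ 6 : ℝ) ^ 33 * (9127 / 10 ^ 18 + cE) ≤ 1334 / 10 ^ 15 := by
    unfold cE; norm_num
  obtain ⟨a_9, y_9, b_9, c_9⟩ := phase ok9 le9 hm (n := 33) (by norm_num) runs9 (t0 := 309 / 32)
    (e := 9127 / 10 ^ 18) (by norm_num) (fun t ht => hY t (by linarith)) (p_9.trans (by norm_num))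
    (y0 := (cnv P8 P9 y_8)) (b_8.trans (cnv_cnv P8 P9 PG y_8).symm) d_9
  have t_9 : (309 / 32 : ℝ) + (33 : ℕ) / Q9.H = 651 / 64 := by
    show (309 / 32 : ℝ) + (33 : ℕ) / (64 : ℕ) = 651 / 64
    norm_num
  rw [t_9] at a_9 b_9
  replace c_9 : dist y_9 (stE Q9 w9) ≤ 1334 / 10 ^ 15 := c_9.trans p_9
  have d_10 : dist (cnv P9 P10 y_9) (stE Q10 u10) ≤ 1335 / 10 ^ 15 :=
    trans_step Q9 Q10 (by norm_num [Q10]) (by norm_num [Q10]) (by norm_num [Q10, P10]) cv9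
      (c := 1) (by norm_num) (by norm_num [Q9, Q10, P9, P10]) (by norm_num) c_9
  have p_10 : (1133248 / 10 ^ 6 : ℝ) ^ 14 * (1335 / 10 ^ 15 + cE) ≤ 7700 / 10 ^ 15 := by
    unfold cE; norm_num
  obtain ⟨a_10, y_10, b_10, c_10⟩ := phase ok10 le10 hm (n := 14) (by norm_num) runs10 (t0 := 651 / 64)
    (e := 1335 / 10 ^ 15) (by norm_num) (fun t ht => hY t (by linarith)) (p_10.trans (by norm_num))
    (y0 := (cnv P9 P10 y_9)) (b_9.trans (cnv_cnv P9 P10 PG y_9).symm) d_10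
  have t_10 : (651 / 64 : ℝ) + (14 : ℕ) / Q10.H = 329 / 32 := by
    show (651 / 64 : ℝ) + (14 : ℕ) / (128 : ℕ) = 329 / 32
    norm_num
  rw [t_10] at a_10 b_10
  replace c_10 : dist y_10 (stE Q10 w10) ≤ 7700 / 10 ^ 15 := c_10.trans p_10
  have d_11 : dist (cnv P10 P11 y_10) (stE Q11 u11) ≤ 7701 / 10 ^ 15 :=
    trans_step Q10 Q11 (by norm_num [Q11]) (by norm_num [Q11]) (by norm_num [Q11, P11]) cv10
      (c := 1) (by norm_num) (by norm_num [Q10, Q11, P10, P11]) (by norm_num) c_10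
  have p_11 : (1140665 / 10 ^ 6 : ℝ) ^ 12 * (7701 / 10 ^ 15 + cE) ≤ 3741 / 10 ^ 14 := by
    unfold cE; norm_num
  obtain ⟨a_11, y_11, b_11, c_11⟩ := phase ok11 le11 hm (n := 12) (by norm_num) runs11 (t0 := 329 / 32)
    (e := 7701 / 10 ^ 15) (by norm_num) (fun t ht => hY t (by linarith)) (p_11.trans (by norm_num))
    (y0 := (cnv P10 P11 y_10)) (b_10.trans (cnv_cnv P10 P11 PG y_10).symm) d_11
  have t_11 : (329 / 32 : ℝ) + (12 : ℕ) / Q11.H = 661 / 64 := by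
    show (329 / 32 : ℝ) + (12 : ℕ) / (256 : ℕ) = 661 / 64
    norm_num
  rw [t_11] at a_11 b_11
  replace c_11 : dist y_11 (stE Q11 w11) ≤ 3741 / 10 ^ 14 := c_11.trans p_11
  have d_12 : dist (cnv P11 P12 y_11) (stE Q12 u12) ≤ 3742 / 10 ^ 14 :=
    trans_step Q11 Q12 (by norm_num [Q12]) (by norm_num [Q12]) (by norm_num [Q12, P12]) cv11
      (c := 1) (by norm_num) (by norm_num [Q11, Q12, P11, P12]) (by norm_num) c_11
  have p_12 : (1142259 / 10 ^ 6 : ℝ) ^ 40 * (3742 / 10 ^ 14 + cE) ≤ 7659 / 10 ^ 12 := by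
    unfold cE; norm_num
  obtain ⟨a_12, y_12, b_12, c_12⟩ := phase ok12 le12 hm (n := 40) (by norm_num) runs12 (t0 := 661 / 64)
    (e := 3742 / 10 ^ 14) (by norm_num) (fun t ht => hY t (by linarith)) (p_12.trans (by norm_num))
    (y0 := (cnv P11 P12 y_11)) (b_11.trans (cnv_cnv P11 P12 PG y_11).symm) d_12
  have t_12 : (661 / 64 : ℝ) + (40 : ℕ) / Q12.H = 333 / 32 := by
    show (661 / 64 : ℝ) + (40 : ℕ) / (512 : ℕ) = 333 / 32
    norm_num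
  rw [t_12] at a_12 b_12
  replace c_12 : dist y_12 (stE Q12 w12) ≤ 7659 / 10 ^ 12 := c_12.trans p_12
  have d_13 : dist (cnv P12 P13 y_12) (stE Q13 u13) ≤ 1699 / 10 ^ 11 :=
    trans_step Q12 Q13 (by norm_num [Q13]) (by norm_num [Q13]) (by norm_num [Q13, P13]) cv12
      (c := 22175 / 10 ^ 4) (by norm_num) (by norm_num [Q12, Q13, P12, P13]) (by norm_num) c_12
  have p_13 : (1127455 / 10 ^ 6 : ℝ) ^ 20 * (1699 / 10 ^ 11 + cE) ≤ 1874 / 10 ^ 10 := by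
    unfold cE; norm_num
  obtain ⟨a_13, y_13, b_13, c_13⟩ := phase ok13 le13 hm (n := 20) (by norm_num) runs13 (t0 := 333 / 32)
    (e := 1699 / 10 ^ 11) (by norm_num) (fun t ht => hY t (by linarith)) (p_13.trans (by norm_num))
    (y0 := (cnv P12 P13 y_12)) (b_12.trans (cnv_cnv P12 P13 PG y_12).symm) d_13
  have t_13 : (333 / 32 : ℝ) + (20 : ℕ) / Q13.H = 671 / 64 := by
    show (333 / 32 : ℝ) + (20 : ℕ) / (256 : ℕ) = 671 / 64
    norm_num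
  rw [t_13] at a_13 b_13
  replace c_13 : dist y_13 (stE Q13 w13) ≤ 1874 / 10 ^ 10 := c_13.trans p_13
  have d_14 : dist (cnv P13 P14 y_13) (stE Q14 u14) ≤ 4876 / 10 ^ 10 :=
    trans_step Q13 Q14 (by norm_num [Q14]) (by norm_num [Q14]) (by norm_num [Q14, P14]) cv13
      (c := 26017 / 10 ^ 4) (by norm_num) (by norm_num [Q13, Q14, P13, P14]) (by norm_num) c_13
  have p_14 : (1096607 / 10 ^ 6 : ℝ) ^ 50 * (4876 / 10 ^ 10 + cE) ≤ 4910 / 10 ^ 8 := by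
    unfold cE; norm_num
  obtain ⟨a_14, y_14, b_14, c_14⟩ := phase ok14 le14 hm (n := 50) (by norm_num) runs14 (t0 := 671 / 64)
    (e := 4876 / 10 ^ 10) (by norm_num) (fun t ht => hY t (by linarith)) (p_14.trans (by norm_num))
    (y0 := (cnv P13 P14 y_13)) (b_13.trans (cnv_cnv P13 P14 PG y_13).symm) d_14
  have t_14 : (671 / 64 : ℝ) + (50 : ℕ) / Q14.H = 87 / 8 := by
    show (671 / 64 : ℝ) + (50 : ℕ) / (128 : ℕ) = 87 / 8
    norm_num
  rw [t_14] at a_14 b_14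
  replace c_14 : dist y_14 (stE Q14 w14) ≤ 4910 / 10 ^ 8 := c_14.trans p_14
  have hE : EscC PG m (Y (87 / 8)) := by
    have h := escC_of_near hm6 (y := y_14) (c_14.trans (by norm_num))
    rw [b_14]; exact h
  have hesc := fun (t : ℝ) (ht : 87 / 8 ≤ t) => escape hm6 (by simp only [PG]; norm_num)
    (by simp only [PG]; norm_num) (by simp only [PG]; norm_num) (T0 := 87 / 8)
    (fun s hs => hY s (by linarith)) hE ht
  refine ⟨?_, fun h => (hesc t h).1⟩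
  rcases le_or_gt t (27 / 8) with h_0 | h_0
  · exact a_0 t ⟨ht, h_0⟩
  rcases le_or_gt t (37 / 8) with h_1 | h_1
  · exact a_1 t ⟨h_0.le, h_1⟩
  rcases le_or_gt t (89 / 16) with h_2 | h_2
  · exact a_2 t ⟨h_1.le, h_2⟩
  rcases le_or_gt t (101 / 16) with h_3 | h_3
  · exact a_3 t ⟨h_2.le, h_3⟩
  rcases le_or_gt t (53 / 8) with h_4 | h_4
  · exact a_4 t ⟨h_3.le, h_4⟩
  rcases le_or_gt t (113 / 16) with h_5 | h_5
  · exact a_5 t ⟨h_4.le, h_5⟩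
  rcases le_or_gt t (119 / 16) with h_6 | h_6
  · exact a_6 t ⟨h_5.le, h_6⟩
  rcases le_or_gt t (71 / 8) with h_7 | h_7
  · exact a_7 t ⟨h_6.le, h_7⟩
  rcases le_or_gt t (309 / 32) with h_8 | h_8
  · exact a_8 t ⟨h_7.le, h_8⟩
  rcases le_or_gt t (651 / 64) with h_9 | h_9
  · exact a_9 t ⟨h_8.le, h_9⟩
  rcases le_or_gt t (329 / 32) with h_10 | h_10
  · exact a_10 t ⟨h_9.le, h_10⟩
  rcases le_or_gt t (661 / 64) with h_11 | h_11
  · exact a_11 t ⟨h_10.le, h_11⟩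
  rcases le_or_gt t (333 / 32) with h_12 | h_12
  · exact a_12 t ⟨h_11.le, h_12⟩
  rcases le_or_gt t (671 / 64) with h_13 | h_13
  · exact a_13 t ⟨h_12.le, h_13⟩
  rcases le_or_gt t (87 / 8) with h_14 | h_14
  · exact a_14 t ⟨h_13.le, h_14⟩
  exact (hesc t h_14.le).2

end Pool.Agent.T9h50.TM
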