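import Pool.Agent.T9h50.TM.Num
import Pool.Agent.T9h50.TB.Esc

/-!
# One step of the numerical integration
-/

set_option autoImplicit false
set_option exponentiation.threshold 3000

open scoped NNReal ComplexConjugate
open Complex Set

open Pool.Agent.T9h50.TB (E kd kd_lip kd_eq norm_kd_le)

namespace Pool.Agent.T9h50.TM

/-- the scale -/
noncomputable def SR : ℝ := 2 ^ 160

lemma SR_pos : 0 < SR := by unfold SR; positivity

/-- the complex polynomial -/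
noncomputable def cz (l k : List Int) (x : ℝ) : ℂ := ⟨evR l x / SR, evR k x / SR⟩
noncomputable def cz1 (l k : List Int) (x : ℝ) : ℂ := ⟨dR l x / SR, dR k x / SR⟩
noncomputable def cz2 (l k : List Int) (x : ℝ) : ℂ := ⟨ddR l x / SR, ddR k x / SR⟩

lemma hasDerivAt_mk {f g : ℝ → ℝ} {f' g' x : ℝ} (hf : HasDerivAt f f' x) (hg : HasDerivAt g g' x) :
    HasDerivAt (fun x => (⟨f x, g x⟩ : ℂ)) ⟨f', g'⟩ x := by
  have h1 : HasDerivAt (fun x => ((f x : ℝ) : ℂ)) ((f' : ℝ) : ℂ) x := hf.ofReal_comp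
  have h2 : HasDerivAt (fun x => ((g x : ℝ) : ℂ)) ((g' : ℝ) : ℂ) x := hg.ofReal_comp
  have h3 := h1.fun_add (h2.mul_const I)
  have e : ∀ a b : ℝ, (⟨a, b⟩ : ℂ) = (a : ℂ) + (b : ℂ) * I := fun a b => by
    apply Complex.ext <;> simp
  simp only [e]
  exact h3

lemma hasDerivAt_cz (l k : List Int) (x : ℝ) : HasDerivAt (cz l k) (cz1 l k x) x :=
  hasDerivAt_mk ((hasDerivAt_evR l x).div_const SR) ((hasDerivAt_evR k x).div_const SR)

lemma hasDerivAt_cz1 (l k : List Int) (x : ℝ) : HasDerivAt (cz1 l k) (cz2 l k x) x :=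
  hasDerivAt_mk ((hasDerivAt_dR l x).div_const SR) ((hasDerivAt_dR k x).div_const SR)

/-- comparison with the kernel -/
lemma kern_cmp {u v g D d c : ℝ} (hd : 0 < d) (hg : 0 < g) (hD0 : 0 ≤ D)
    (h : |g * g * (u * u + v * v) - 2 ^ 640| ≤ D) (hD : D ≤ 2 ^ 640 / 10 ^ 4)
    (hgc : g * c ≤ 100000 * 2 ^ 160) (hc0 : 0 < c)
    (hc : 100000 * d ≤ (1 - 1 / 10 ^ 4) * c) :
    (1 - 1 / 10 ^ 4) * c / 100000 ≤ ‖(⟨u / SR, v / SR⟩ : ℂ)‖ ∧
    ‖((g / SR * (g / SR) * (g / SR) : ℝ) : ℂ) * (⟨u / SR, v / SR⟩ : ℂ) - kd d ⟨u / SR, v / SR⟩‖ ≤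
      4 * (D / 2 ^ 640) / d ^ 2 := by
  set z : ℂ := ⟨u / SR, v / SR⟩ with hz
  set r := ‖z‖ with hr
  set γ := g / SR with hγ
  have hS := SR_pos
  have hγ0 : 0 < γ := div_pos hg hS
  have hr0 : 0 ≤ r := norm_nonneg _
  have hS4 : SR ^ 4 = 2 ^ 640 := by unfold SR; norm_num
  have hr2 : r ^ 2 = (u * u + v * v) / SR ^ 2 := by
    rw [hr, ← Complex.normSq_eq_norm_sq, hz, Complex.normSq_mk]
    field_simp
  set ε := D / 2 ^ 640 with hε
  have hε0 : 0 ≤ ε := by positivity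
  have hε1 : ε ≤ 1 / 10 ^ 4 := by
    rw [hε, div_le_iff₀ (by positivity)]
    linarith
  have hy2 : |(γ * r) ^ 2 - 1| ≤ ε := by
    have : (γ * r) ^ 2 - 1 = (g * g * (u * u + v * v) - 2 ^ 640) / 2 ^ 640 := by
      rw [mul_pow, hr2, hγ, ← hS4]
      field_simp
    rw [this, abs_div, abs_of_pos (by positivity : (0:ℝ) < 2 ^ 640)]
    exact div_le_div_of_nonneg_right h (by positivity)
  set y := γ * r with hy
  have hy0 : 0 ≤ y := mul_nonneg hγ0.le hr0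
  obtain ⟨hy3, hy4⟩ := abs_le.1 hy2
  have hy1 : 1 - ε ≤ y := by nlinarith
  have hy5 : y ≤ 1 + ε := by nlinarith
  have hrlow : (1 - 1 / 10 ^ 4) * c / 100000 ≤ r := by
    have h1 : γ * c ≤ 100000 := by
      rw [hγ, div_mul_eq_mul_div, div_le_iff₀ hS]
      unfold SR
      linarith
    have h2 : (1 - 1 / 10 ^ 4) ≤ γ * r := by linarith
    have h3 : (1 - 1 / 10 ^ 4) * c ≤ 100000 * r := by
      calc (1 - 1 / 10 ^ 4) * c ≤ (γ * r) * c := by gcongr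
        _ = (γ * c) * r := by ring
        _ ≤ 100000 * r := by gcongr
    linarith
  have hrd : d ≤ r := by
    have : d ≤ (1 - 1 / 10 ^ 4) * c / 100000 := by linarith
    linarith
  have hrpos : 0 < r := hd.trans_le hrd
  refine ⟨hrlow, ?_⟩
  rw [kd_eq hrd]
  have e1 : ((γ * γ * γ : ℝ) : ℂ) * z - (((‖z‖ ^ 3)⁻¹ : ℝ) • z) =
      ((((y ^ 3 - 1) / r ^ 3 : ℝ)) : ℂ) * z := by
    rw [Complex.real_smul, ← hr, ← sub_mul, ← Complex.ofReal_sub]
    congr 2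
    rw [hy]
    field_simp
  rw [e1, norm_mul, Complex.norm_real, Real.norm_eq_abs, ← hr, abs_div, abs_of_pos (by positivity : 0 < r ^ 3)]
  have e2 : |y ^ 3 - 1| ≤ 4 * ε := by
    have e3 : y ^ 3 - 1 = (y - 1) * (y ^ 2 + y + 1) := by ring
    have e4 : |y - 1| * (y + 1) ≤ ε := by
      have : (y - 1) * (y + 1) = y ^ 2 - 1 := by ring
      rw [← abs_of_pos (by linarith : 0 < y + 1), ← abs_mul, this]
      exact hy2
    rw [e3, abs_mul, abs_of_pos (by nlinarith : 0 < y ^ 2 + y + 1)]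
    have e5 : y ^ 2 + y + 1 ≤ 4 * (y + 1) := by nlinarith
    calc |y - 1| * (y ^ 2 + y + 1) ≤ |y - 1| * (4 * (y + 1)) := by gcongr
      _ = 4 * (|y - 1| * (y + 1)) := by ring
      _ ≤ 4 * ε := by gcongr
  calc |y ^ 3 - 1| / r ^ 3 * r = |y ^ 3 - 1| / r ^ 2 := by field_simp
    _ ≤ 4 * ε / d ^ 2 := by gcongr

/-- a complex number with small components -/
lemma norm_mk_le {a b c : ℝ} (ha : |a| ≤ c) (hb : |b| ≤ c) : ‖(⟨a, b⟩ : ℂ)‖ ≤ 2 * c := by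
  calc ‖(⟨a, b⟩ : ℂ)‖ ≤ |a| + |b| := Complex.norm_le_abs_re_add_abs_im _
    _ ≤ 2 * c := by linarith

/-- sum of the errors -/
lemma combine {W A B C a b c : ℂ} {k1 k2 k3 : ℝ} {δ ea eb ec : ℝ}
    (hW : ‖W - (k1 • (B - C) - k2 • A)‖ ≤ δ) (hA : ‖A - a‖ ≤ ea) (hB : ‖B - b‖ ≤ eb)
    (hC : ‖C - c‖ ≤ ec) (hk1 : 0 ≤ k1) (hk2 : 0 ≤ k2) (h3 : k1 * (eb + ec) + k2 * ea ≤ k3) :
    ‖W - (k1 • (b - c) - k2 • a)‖ ≤ δ + k3 := by
  have e : W - (k1 • (b - c) - k2 • a) = (W - (k1 • (B - C) - k2 • A)) +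
      (k1 • ((B - b) - (C - c)) - k2 • (A - a)) := by
    simp only [smul_sub]; abel
  rw [e]
  refine (norm_add_le _ _).trans ?_
  have h4 : ‖k1 • ((B - b) - (C - c)) - k2 • (A - a)‖ ≤ k1 * (eb + ec) + k2 * ea := by
    refine (norm_sub_le _ _).trans ?_
    rw [norm_smul, norm_smul, Real.norm_of_nonneg hk1, Real.norm_of_nonneg hk2]
    gcongr
    exact (norm_sub_le _ _).trans (by gcongr)
  linarith


end Pool.Agent.T9h50.TM
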