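import Pool.Agent.T9h50.TM.Nm0

/-!
# Soundness of the packed arithmetic
-/

set_option autoImplicit false
set_option exponentiation.threshold 1000

namespace Pool.Agent.T9h50.TM

/-- the real polynomial with the given coefficients -/
noncomputable def evR : List Int → ℝ → ℝ
  | [], _ => 0
  | a :: p, x => a + x * evR p x

/-- its derivative -/
noncomputable def dR : List Int → ℝ → ℝ
  | [], _ => 0
  | _ :: p, x => evR p x + x * dR p x

/-- its second derivative -/
noncomputable def ddR : List Int → ℝ → ℝ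
  | [], _ => 0
  | _ :: p, x => 2 * dR p x + x * ddR p x

lemma hasDerivAt_evR (l : List Int) (x : ℝ) : HasDerivAt (evR l) (dR l x) x := by
  induction l with
  | nil => simpa [evR, dR] using hasDerivAt_const x (0 : ℝ)
  | cons a p ih =>
    have h : HasDerivAt (fun y => (a : ℝ) + y * evR p y) (1 * evR p x + x * dR p x) x :=
      ((hasDerivAt_id x).fun_mul ih).const_add (a : ℝ)
    rw [one_mul] at h
    exact h

lemma hasDerivAt_dR (l : List Int) (x : ℝ) : HasDerivAt (dR l) (ddR l x) x := by
  induction l with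
  | nil => simpa [ddR, dR] using hasDerivAt_const x (0 : ℝ)
  | cons a p ih =>
    have h : HasDerivAt (fun y => evR p y + y * dR p y) (dR p x + (1 * dR p x + x * ddR p x)) x :=
      (hasDerivAt_evR p x).fun_add ((hasDerivAt_id x).fun_mul ih)
    have e : dR p x + (1 * dR p x + x * ddR p x) = 2 * dR p x + x * ddR p x := by ring
    rw [e] at h
    exact h

lemma pk_cons (a : Int) (p : List Int) : pk (a :: p) = a + (XN : ℤ) * pk p := rfl

lemma XN_eq : XN = 2 ^ 768 := by
  unfold XN
  rfl

lemma XN_pos : 0 < XN := by rw [XN_eq]; exact Nat.pow_pos (by norm_num)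

lemma XNz_pos : (0 : ℤ) < ((XN : ℕ) : ℤ) := by exact_mod_cast XN_pos

lemma pk_nil : pk [] = 0 := rfl

lemma geo_aux : 1 < XN := by
  rw [XN_eq]
  exact Nat.one_lt_two_pow (by norm_num)

/-- sum of polynomials -/
def addp : List Int → List Int → List Int
  | [], q => q
  | a :: p, [] => a :: p
  | a :: p, b :: q => (a + b) :: addp p q

/-- multiple of a polynomial -/
def scp (c : Int) : List Int → List Int
  | [] => []
  | a :: p => (c * a) :: scp c p

/-- product of polynomials -/
def mulp : List Int → List Int → List Int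
  | [], _ => []
  | a :: p, q => addp (scp a q) (0 :: mulp p q)

lemma pk_addp (p q : List Int) : pk (addp p q) = pk p + pk q := by
  induction p generalizing q with
  | nil => simp [addp, pk_nil]
  | cons a p ih =>
    cases q with
    | nil => simp [addp, pk_nil]
    | cons b q => simp only [addp, pk_cons, ih]; ring

lemma evR_addp (p q : List Int) (x : ℝ) : evR (addp p q) x = evR p x + evR q x := by
  induction p generalizing q with
  | nil => simp [addp, evR]
  | cons a p ih =>
    cases q with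
    | nil => simp [addp, evR]
    | cons b q => simp only [addp, evR, ih]; push_cast; ring

lemma nrm_cons (a : Int) (p : List Int) : nrm (a :: p) = a.natAbs + nrm p := rfl

lemma nrm_addp (p q : List Int) : nrm (addp p q) ≤ nrm p + nrm q := by
  induction p generalizing q with
  | nil => simp [addp, nrm]
  | cons a p ih =>
    cases q with
    | nil => simp [addp, nrm]
    | cons b q =>
      simp only [addp, nrm_cons]
      have := ih q
      have h := Int.natAbs_add_le a b
      omega

lemma pk_scp (c : Int) (p : List Int) : pk (scp c p) = c * pk p := by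
  induction p with
  | nil => simp [scp, pk_nil]
  | cons a p ih => simp only [scp, pk_cons, ih]; ring

lemma evR_scp (c : Int) (p : List Int) (x : ℝ) : evR (scp c p) x = c * evR p x := by
  induction p with
  | nil => simp [scp, evR]
  | cons a p ih => simp only [scp, evR, ih]; push_cast; ring

lemma nrm_scp (c : Int) (p : List Int) : nrm (scp c p) = c.natAbs * nrm p := by
  induction p with
  | nil => simp [scp, nrm]
  | cons a p ih => simp only [scp, nrm_cons, ih, Int.natAbs_mul]; ring

lemma pk_mulp (p q : List Int) : pk (mulp p q) = pk p * pk q := by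
  induction p with
  | nil => simp [mulp, pk_nil]
  | cons a p ih => simp only [mulp, pk_addp, pk_scp, pk_cons, ih]; ring

lemma evR_mulp (p q : List Int) (x : ℝ) : evR (mulp p q) x = evR p x * evR q x := by
  induction p with
  | nil => simp [mulp, evR]
  | cons a p ih => simp only [mulp, evR_addp, evR_scp, evR, ih]; push_cast; ring

lemma nrm_mulp (p q : List Int) : nrm (mulp p q) ≤ nrm p * nrm q := by
  induction p with
  | nil => simp [mulp, nrm]
  | cons a p ih =>
    simp only [mulp, nrm_cons]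
    calc nrm (addp (scp a q) (0 :: mulp p q)) ≤ nrm (scp a q) + nrm (0 :: mulp p q) := nrm_addp _ _
      _ = a.natAbs * nrm q + nrm (mulp p q) := by rw [nrm_scp, nrm_cons]; simp
      _ ≤ (a.natAbs + nrm p) * nrm q := by rw [add_mul]; omega

/-- the coefficients are small -/
def Small (p : List Int) : Prop := ∀ a ∈ p, 2 * a.natAbs < XN

lemma small_of_nrm {p : List Int} (h : 2 * nrm p < XN) : Small p := by
  induction p with
  | nil => intro a ha; simp at ha
  | cons b p ih =>
    rw [nrm_cons] at h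
    intro a ha
    rcases List.mem_cons.1 ha with rfl | ha
    · omega
    · exact ih (by omega) a ha

lemma zero_of_pk (p : List Int) (hp : Small p) (h : pk p = 0) (x : ℝ) : evR p x = 0 := by
  induction p with
  | nil => rfl
  | cons a p ih =>
    rw [pk_cons] at h
    have ha := hp a (by simp)
    have hX : (0 : ℤ) < XN := XNz_pos
    have hdiv : (XN : ℤ) ∣ a := ⟨-pk p, by linarith⟩
    have ha0 : a = 0 := by
      apply Int.eq_zero_of_abs_lt_dvd hdiv
      have : |a| = (a.natAbs : ℤ) := Int.abs_eq_natAbs a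
      omega
    have hp0 : pk p = 0 := by
      rw [ha0, zero_add] at h
      rcases mul_eq_zero.1 h with h | h
      · omega
      · exact h
    rw [evR, ih (fun b hb => hp b (by simp [hb])) hp0, ha0]
    simp

lemma unique_of_pk (p q : List Int) (hp : Small p) (hq : Small q) (h : pk p = pk q) (x : ℝ) :
    evR p x = evR q x := by
  induction p generalizing q with
  | nil => rw [zero_of_pk q hq (by rw [← h]; rfl)]; rfl
  | cons a p ih =>
    cases q with
    | nil => rw [zero_of_pk (a :: p) hp (by rw [h]; rfl)]; rfl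
    | cons b q =>
      rw [pk_cons, pk_cons] at h
      have ha := hp a (by simp)
      have hb := hq b (by simp)
      have hdiv : (XN : ℤ) ∣ a - b := ⟨pk q - pk p, by linarith⟩
      have hab : a - b = 0 := by
        apply Int.eq_zero_of_abs_lt_dvd hdiv
        have h1 : |a - b| ≤ |a| + |b| := abs_sub a b
        have h2 : |a| = (a.natAbs : ℤ) := Int.abs_eq_natAbs a
        have h3 : |b| = (b.natAbs : ℤ) := Int.abs_eq_natAbs b
        omega
      have hab' : a = b := by omega
      subst hab'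
      have hX : (XN : ℤ) ≠ 0 := XNz_pos.ne'
      have hpq : pk p = pk q := by
        have : (XN : ℤ) * pk p = XN * pk q := by linarith
        exact mul_left_cancel₀ hX this
      rw [evR, evR, ih q (fun c hc => hp c (by simp [hc])) (fun c hc => hq c (by simp [hc])) hpq]

lemma abs_evR_le (p : List Int) {x : ℝ} (h0 : 0 ≤ x) (h1 : x ≤ 1) : |evR p x| ≤ nrm p := by
  induction p with
  | nil => simp [evR, nrm]
  | cons a p ih =>
    rw [evR, nrm_cons]
    push_cast
    calc |(a : ℝ) + x * evR p x| ≤ |(a : ℝ)| + |x * evR p x| := abs_add_le _ _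
      _ = |(a : ℝ)| + x * |evR p x| := by rw [abs_mul, abs_of_nonneg h0]
      _ ≤ (a.natAbs : ℝ) + 1 * nrm p := by
        gcongr
        rw [Nat.cast_natAbs]; simp
      _ = _ := by ring

/-- all coefficients are at most `D` -/
lemma nrm_le_of_forall (p : List Int) (D : ℕ) (h : ∀ a ∈ p, a.natAbs ≤ D) :
    nrm p ≤ p.length * D := by
  induction p with
  | nil => simp [nrm]
  | cons a p ih =>
    rw [nrm_cons, List.length_cons, add_mul, one_mul]
    have := ih (fun b hb => h b (by simp [hb]))
    have := h a (by simp)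
    omega

/-- the geometric sum -/
def geo : ℕ → ℤ
  | 0 => 0
  | n + 1 => 1 + (XN : ℤ) * geo n

lemma geo_eq (n : ℕ) : ((XN : ℤ) - 1) * geo n = (XN : ℤ) ^ n - 1 := by
  induction n with
  | zero => simp [geo]
  | succ n ih =>
    rw [geo]
    calc ((XN : ℤ) - 1) * (1 + (XN : ℤ) * geo n) = (XN : ℤ) - 1 + XN * (((XN : ℤ) - 1) * geo n) := by ring
      _ = (XN : ℤ) ^ (n + 1) - 1 := by rw [ih]; ring

lemma geo_nonneg (n : ℕ) : 0 ≤ geo n := by
  induction n with
  | zero => simp [geo]
  | succ n ih => rw [geo]; have := XNz_pos; positivity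

lemma geo_div (n : ℕ) : ((XN ^ n - 1) / (XN - 1) : ℕ) = (geo n).toNat := by
  have h1 : 1 < XN := geo_aux
  apply Nat.div_eq_of_eq_mul_right (by omega)
  have h2 := geo_eq n
  have h3 : 1 ≤ XN ^ n := Nat.one_le_pow _ _ (by omega)
  zify [h3, h1.le]
  rw [Int.toNat_of_nonneg (geo_nonneg n)]
  linarith

/-- the digits of a natural number -/
lemma chkN_sound (D : ℕ) (n V : ℕ) (h : chkN (2 * D) n V = true) :
    ∃ r : List Int, r.length = n ∧ (∀ a ∈ r, a.natAbs ≤ D) ∧ pk r = (V : ℤ) - D * geo n := by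
  induction n generalizing V with
  | zero =>
    refine ⟨[], rfl, by simp, ?_⟩
    have : V = 0 := by simpa [chkN] using h
    simp [pk_nil, geo, this]
  | succ n ih =>
    rw [chkN, Bool.and_eq_true] at h
    obtain ⟨h1, h2⟩ := h
    obtain ⟨r, hr1, hr2, hr3⟩ := ih _ h2
    have h1' : V % XN ≤ 2 * D := Nat.le_of_ble_eq_true h1
    refine ⟨(((V % XN : ℕ) : ℤ) - D) :: r, by simp [hr1], ?_, ?_⟩
    · intro a ha
      rcases List.mem_cons.1 ha with rfl | ha
      · omega
      · exact hr2 a ha
    · rw [pk_cons, hr3, geo]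
      have h3 : ((V % XN : ℕ) : ℤ) + XN * ((V / XN : ℕ) : ℤ) = V := by
        exact_mod_cast Nat.mod_add_div V XN
      have h4 : (Nat.div V XN) = V / XN := rfl
      rw [h4]
      linear_combination h3

lemma pow_eq164 : Nat.pow 2 125952 = XN ^ 164 := by
  rw [XN_eq, ← pow_mul, show 768 * 164 = 125952 from rfl]
  rfl

lemma XN_pow : Nat.pow 2 768 = XN := XN_eq.symm

lemma chk_sound (D : ℕ) (V : ℤ) (h : chk D V = true) :
    ∃ r : List Int, nrm r ≤ 164 * D ∧ (∀ a ∈ r, a.natAbs ≤ D) ∧ pk r = V := by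
  have hJ : Nat.div (Nat.sub (Nat.pow 2 125952) 1) (Nat.sub (Nat.pow 2 768) 1) = (geo 164).toNat := by
    rw [← geo_div, pow_eq164, XN_pow]; rfl
  have hJ2 : (((geo 164).toNat : ℕ) : ℤ) = geo 164 := Int.toNat_of_nonneg (geo_nonneg _)
  unfold chk at h
  rw [hJ] at h
  have key : ∃ n : ℕ, Int.add V (Int.ofNat (Nat.mul D (geo 164).toNat)) = Int.ofNat n ∧
      chkN (2 * D) 164 n = true := by
    cases hV : Int.add V (Int.ofNat (Nat.mul D (geo 164).toNat)) with
    | ofNat n => rw [hV] at h; exact ⟨n, rfl, h⟩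
    | negSucc n => rw [hV] at h; simp at h
  obtain ⟨n, hn, hc⟩ := key
  obtain ⟨r, h1, h2, h3⟩ := chkN_sound D 164 n hc
  refine ⟨r, ?_, h2, ?_⟩
  · rw [← h1]; exact nrm_le_of_forall r D h2
  · rw [h3]
    have : V + ((D * (geo 164).toNat : ℕ) : ℤ) = (n : ℤ) := hn
    push_cast at this
    rw [hJ2] at this
    linarith

/-- `V` is the packed form of a polynomial with norm at most `B`, which represents the function
`f` -/
def Rep (V : ℤ) (B : ℕ) (f : ℝ → ℝ) : Prop :=
  ∃ p : List Int, pk p = V ∧ nrm p ≤ B ∧ ∀ x, evR p x = f x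

lemma Rep.list (p : List Int) {B : ℕ} (h : nrm p ≤ B) : Rep (pk p) B (evR p) :=
  ⟨p, rfl, h, fun _ => rfl⟩

lemma Rep.add {V W : ℤ} {B C : ℕ} {f g : ℝ → ℝ} (h : Rep V B f) (k : Rep W C g) :
    Rep (V + W) (B + C) (fun x => f x + g x) := by
  obtain ⟨p, p1, p2, p3⟩ := h
  obtain ⟨q, q1, q2, q3⟩ := k
  exact ⟨addp p q, by rw [pk_addp, p1, q1], (nrm_addp p q).trans (by omega),
    fun x => by rw [evR_addp, p3, q3]⟩

lemma Rep.mul {V W : ℤ} {B C : ℕ} {f g : ℝ → ℝ} (h : Rep V B f) (k : Rep W C g) :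
    Rep (V * W) (B * C) (fun x => f x * g x) := by
  obtain ⟨p, p1, p2, p3⟩ := h
  obtain ⟨q, q1, q2, q3⟩ := k
  exact ⟨mulp p q, by rw [pk_mulp, p1, q1], (nrm_mulp p q).trans (Nat.mul_le_mul p2 q2),
    fun x => by rw [evR_mulp, p3, q3]⟩

lemma Rep.smul {V : ℤ} {B : ℕ} {f : ℝ → ℝ} (c : ℤ) (h : Rep V B f) :
    Rep (c * V) (c.natAbs * B) (fun x => c * f x) := by
  obtain ⟨p, p1, p2, p3⟩ := h
  exact ⟨scp c p, by rw [pk_scp, p1], by rw [nrm_scp]; exact Nat.mul_le_mul_left _ p2,
    fun x => by rw [evR_scp, p3]⟩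

lemma Rep.sub {V W : ℤ} {B C : ℕ} {f g : ℝ → ℝ} (h : Rep V B f) (k : Rep W C g) :
    Rep (V - W) (B + C) (fun x => f x - g x) := by
  have := h.add (k.smul (-1))
  convert this using 1
  · ring
  · simp
  · funext x; push_cast; ring

lemma Rep.const (c : ℤ) : Rep c c.natAbs (fun _ => (c : ℝ)) :=
  ⟨[c], by rw [pk_cons, pk_nil]; simp, by simp [nrm], fun x => by simp [evR]⟩

lemma Rep.mono {V : ℤ} {B C : ℕ} {f : ℝ → ℝ} (h : Rep V B f) (hBC : B ≤ C) : Rep V C f := by
  obtain ⟨p, p1, p2, p3⟩ := h
  exact ⟨p, p1, p2.trans hBC, p3⟩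

/-- if the check succeeds then the function is small on `[0, 1]` -/
theorem Rep.bound {V : ℤ} {B D : ℕ} {f : ℝ → ℝ} (h : Rep V B f) (hB : 2 * B < XN) (hD : 2 * D < XN)
    (hc : chk D V = true) {x : ℝ} (h0 : 0 ≤ x) (h1 : x ≤ 1) : |f x| ≤ 164 * D := by
  obtain ⟨p, p1, p2, p3⟩ := h
  obtain ⟨r, r1, r2, r3⟩ := chk_sound D V hc
  have hp : Small p := small_of_nrm (by omega)
  have hr : Small r := fun a ha => by have := r2 a ha; omega
  rw [← p3, unique_of_pk p r hp hr (by rw [p1, r3])]
  calc |evR r x| ≤ nrm r := abs_evR_le r h0 h1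
    _ ≤ ((164 * D : ℕ) : ℝ) := by exact_mod_cast r1
    _ = 164 * D := by push_cast; ring

lemma evR_der2 (k : ℕ) (p : List Int) (x : ℝ) : evR (der2 k p) x =
    (k + 1) * (k + 2) * evR p x + (2 * k + 4) * x * dR p x + x ^ 2 * ddR p x := by
  induction p generalizing k with
  | nil => simp [der2, evR, dR, ddR]
  | cons a p ih =>
    have e : evR (der2 k (a :: p)) x =
        (((Int.mul (Int.ofNat (Nat.mul (k + 1) (k + 2))) a : ℤ)) : ℝ) + x * evR (der2 (k + 1) p) x := rfl
    have e2 : (((Int.mul (Int.ofNat (Nat.mul (k + 1) (k + 2))) a : ℤ)) : ℝ) = (k + 1) * (k + 2) * a := by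
      have : Int.mul (Int.ofNat (Nat.mul (k + 1) (k + 2))) a = (((k + 1) * (k + 2) : ℕ) : ℤ) * a := rfl
      rw [this]; push_cast; ring
    rw [e, e2, ih, evR, dR, ddR]
    push_cast
    ring

lemma ddR_eq (l : List Int) (x : ℝ) : ddR l x = evR (der2 0 (l.drop 2)) x := by
  rw [evR_der2]
  match l with
  | [] => simp [evR, dR, ddR]
  | [a] => simp [evR, dR, ddR]
  | a :: b :: p => simp [dR, ddR]; ring

lemma sm_eq (l : List Int) : ((sm l : ℤ) : ℝ) = evR l 1 := by
  induction l with
  | nil => simp [sm, evR]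
  | cons a p ih =>
    have : sm (a :: p) = a + sm p := rfl
    rw [this, evR, ← ih]; push_cast; ring

lemma dsm_eq (k : ℕ) (l : List Int) : ((dsm k l : ℤ) : ℝ) = k * evR l 1 + dR l 1 := by
  induction l generalizing k with
  | nil => simp [dsm, evR, dR]
  | cons a p ih =>
    have : dsm k (a :: p) = (k : ℤ) * a + dsm (k + 1) p := rfl
    rw [this, evR, dR]; push_cast; rw [ih]; push_cast; ring

lemma hd2_sound {l : List Int} {a b : Int} (h : hd2 l a b = true) : evR l 0 = a ∧ dR l 0 = b := by
  match l, h with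
  | x :: y :: p, h =>
    simp only [hd2, Bool.and_eq_true, beq_iff_eq] at h
    simp [evR, dR, h.1, h.2]
  | [], h => simp [hd2] at h
  | [_], h => simp [hd2] at h

end Pool.Agent.T9h50.TM
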