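import Pool.Agent.T9h50.TM.K41
import Pool.Agent.T9h50.TM.K42
import Pool.Agent.T9h50.TM.K43
import Pool.Agent.T9h50.TM.Phs

/-!
# The phases of the numerical integration: the runs
-/

set_option autoImplicit false
set_option exponentiation.threshold 200000

namespace Pool.Agent.T9h50.TM

lemma run_add (H2 : ℤ) (ca cc cb DG DR deg n k : Nat) {s s' s'' : St}
    (h : run H2 ca cc cb DG DR deg n s = some s') (h' : run H2 ca cc cb DG DR deg k s' = some s'') :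
    run H2 ca cc cb DG DR deg (n + k) s = some s'' := by
  induction n generalizing s with
  | zero =>
    have e : run H2 ca cc cb DG DR deg 0 s = some s := rfl
    rw [e] at h
    rw [Option.some.inj h, zero_add]
    exact h'
  | succ n ih =>
    rw [show n + 1 + k = (n + k) + 1 by ring, run_succ]
    rw [run_succ] at h
    cases hc : (chkS (gen H2 deg s) s).and (chkL H2 ca cc cb DG DR (gen H2 deg s)) with
    | false => rw [hc] at h; simp at h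
    | true =>
      rw [hc] at h
      simp only [cond_true] at h ⊢
      exact ih h

lemma runs0 : run ((8 ^ 2 : ℕ) : ℤ) 96887 99291 95062 DG0 DR0 39 27 u0 = some w0 :=
  (run_add _ _ _ _ _ _ _ 18 9 (run_add _ _ _ _ _ _ _ 9 9 run0_0 run0_1) run0_2)

lemma runs1 : run ((16 ^ 2 : ℕ) : ℤ) 98574 76462 86909 DG0 DR0 40 20 u1 = some w1 :=
  (run_add _ _ _ _ _ _ _ 10 10 run1_0 run1_1)

lemma runs2 : run ((64 ^ 2 : ℕ) : ℤ) 106195 44519 99060 DG0 DR0 34 60 u2 = some w2 :=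
  (run_add _ _ _ _ _ _ _ 48 12 (run_add _ _ _ _ _ _ _ 36 12 (run_add _ _ _ _ _ _ _ 24 12 (run_add _ _ _ _ _ _ _ 12 12 run2_0 run2_1) run2_2) run2_3) run2_4)

lemma runs3 : run ((32 ^ 2 : ℕ) : ℤ) 78841 69936 166358 DG0 DR0 35 24 u3 = some w3 :=
  (run_add _ _ _ _ _ _ _ 12 12 run3_0 run3_1)

lemma runs4 : run ((64 ^ 2 : ℕ) : ℤ) 46319 127754 188557 DG0 DR0 35 20 u4 = some w4 :=
  (run_add _ _ _ _ _ _ _ 10 10 run4_0 run4_1)

lemma runs5 : run ((128 ^ 2 : ℕ) : ℤ) 29503 144762 154458 DG0 DR0 34 56 u5 = some w5 :=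
  (run_add _ _ _ _ _ _ _ 45 11 (run_add _ _ _ _ _ _ _ 34 11 (run_add _ _ _ _ _ _ _ 23 11 (run_add _ _ _ _ _ _ _ 12 11 run5_0 run5_1) run5_2) run5_3) run5_4)

lemma runs6 : run ((64 ^ 2 : ℕ) : ℤ) 48245 201866 142497 DG0 DR0 34 24 u6 = some w6 :=
  (run_add _ _ _ _ _ _ _ 12 12 run6_0 run6_1)

lemma runs7 : run ((16 ^ 2 : ℕ) : ℤ) 81592 191482 84250 DG0 DR0 40 23 u7 = some w7 :=
  (run_add _ _ _ _ _ _ _ 12 11 run7_0 run7_1)

lemma runs8 : run ((32 ^ 2 : ℕ) : ℤ) 62951 108655 62972 DG0 DR0 38 25 u8 = some w8 :=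
  (run_add _ _ _ _ _ _ _ 17 8 (run_add _ _ _ _ _ _ _ 9 8 run8_0 run8_1) run8_2)

lemma runs9 : run ((64 ^ 2 : ℕ) : ℤ) 40657 94541 41188 DG0 DR0 39 33 u9 = some w9 :=
  (run_add _ _ _ _ _ _ _ 22 11 (run_add _ _ _ _ _ _ _ 11 11 run9_0 run9_1) run9_2)

lemma runs10 : run ((128 ^ 2 : ℕ) : ℤ) 61543 101966 25478 DG0 DR0 39 14 u10 = some w10 :=
  (run_add _ _ _ _ _ _ _ 7 7 run10_0 run10_1)

lemma runs11 : run ((256 ^ 2 : ℕ) : ℤ) 83023 109236 15319 DG0 DR0 40 12 u11 = some w11 :=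
  run11_0

lemma runs12 : run ((512 ^ 2 : ℕ) : ℤ) 96490 105997 9594 DG0 DR0 40 40 u12 = some w12 :=
  (run_add _ _ _ _ _ _ _ 30 10 (run_add _ _ _ _ _ _ _ 20 10 (run_add _ _ _ _ _ _ _ 10 10 run12_0 run12_1) run12_2) run12_3)

lemma runs13 : run ((256 ^ 2 : ℕ) : ℤ) 122604 107515 16284 DG0 DR0 39 20 u13 = some w13 :=
  (run_add _ _ _ _ _ _ _ 10 10 run13_0 run13_1)

lemma runs14 : run ((128 ^ 2 : ℕ) : ℤ) 134997 120434 30926 DG0 DR0 36 50 u14 = some w14 :=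
  (run_add _ _ _ _ _ _ _ 40 10 (run_add _ _ _ _ _ _ _ 30 10 (run_add _ _ _ _ _ _ _ 20 10 (run_add _ _ _ _ _ _ _ 10 10 run14_0 run14_1) run14_2) run14_3) run14_4)

end Pool.Agent.T9h50.TM
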